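import Mathlib

/-!
# Small perturbations with prescribed derivatives at finitely many points
-/

open Set Filter Topology Metric ContDiff
open scoped NNReal

set_option linter.unusedSectionVars false

namespace CrS

variable {E : Type*} [NormedAddCommGroup E] [NormedSpace ℝ E] [FiniteDimensional ℝ E]

/-- The model: the identity near `0`, cut off. -/
theorem exists_model (k : ℕ) : ∃ w : E → E, ContDiff ℝ ∞ w ∧ (∀ z ∉ closedBall (0 : E) 1, w z = 0) ∧
    (∀ z ∈ closedBall (0 : E) (1 / 2), w z = z) ∧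
    ∃ C : ℝ, 0 < C ∧ ∀ j ≤ k, ∀ z, ‖iteratedFDeriv ℝ j w z‖ ≤ C := by
  let β : ContDiffBump (0 : E) := ⟨1 / 2, 1, by norm_num, by norm_num⟩
  have hβs : ContDiff ℝ ∞ β := β.contDiff
  have hw : ContDiff ℝ ∞ (fun z : E => β z • z) := hβs.smul contDiff_id
  have hc : HasCompactSupport (fun z : E => β z • z) := β.hasCompactSupport.smul_right
  refine ⟨fun z => β z • z, hw, fun z hz => ?_, fun z hz => ?_, ?_⟩
  · have h1 : β z = 0 := β.zero_of_le_dist (by
      have : 1 < dist z 0 := by simpa [mem_closedBall] using hz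
      exact this.le)
    simp only [h1, zero_smul]
  · have h1 : β z = 1 := β.one_of_mem_closedBall hz
    simp only [h1, one_smul]
  · have h1 : ∀ j : ℕ, ∃ C, ∀ z, ‖iteratedFDeriv ℝ j (fun z : E => β z • z) z‖ ≤ C := by
      intro j
      obtain ⟨C, hC⟩ := (hw.continuous_iteratedFDeriv (m := j) (by
        exact_mod_cast le_top)).bounded_above_of_compact_support (hc.iteratedFDeriv j)
      exact ⟨C, hC⟩
    choose C hC using h1
    refine ⟨1 + ∑ j ∈ Finset.range (k + 1), |C j|, by positivity, fun j hj z => ?_⟩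
    have h2 : |C j| ≤ ∑ j ∈ Finset.range (k + 1), |C j| :=
      Finset.single_le_sum (f := fun j => |C j|) (fun _ _ => abs_nonneg _)
        (Finset.mem_range.2 (by omega))
    have h3 := hC j z
    have h4 := le_abs_self (C j)
    linarith

/-- The rescaled model. -/
theorem norm_iteratedFDeriv_scaled {k : ℕ} {w : E → E} (hw : ContDiff ℝ ∞ w) {C : ℝ}
    (hC : ∀ j ≤ k, ∀ z, ‖iteratedFDeriv ℝ j w z‖ ≤ C) {c : E} {R : ℝ} (hR : 0 < R) (hR1 : R ≤ 1)
    {B : E →L[ℝ] E} {δ : ℝ} (hδ : 0 ≤ δ) (hB : ‖B‖ ≤ δ * R ^ (k - 1)) (hk : 1 ≤ k) {j : ℕ}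
    (hj : j ≤ k) (z : E) :
    ‖iteratedFDeriv ℝ j (fun z => (R • B) (w (R⁻¹ • (z - c)))) z‖ ≤ C * δ := by
  have hC0 : 0 ≤ C := (norm_nonneg _).trans (hC 0 (Nat.zero_le _) z)
  -- the composition with the dilation
  set g : E →L[ℝ] E := R⁻¹ • ContinuousLinearMap.id ℝ E with hg
  have hgn : ‖g‖ ≤ R⁻¹ := by
    refine ContinuousLinearMap.opNorm_le_bound _ (by positivity) fun x => ?_
    simp [hg, norm_smul, abs_of_pos hR]
  have h1 : ∀ y, ‖iteratedFDeriv ℝ j (w ∘ g) y‖ ≤ C * (R⁻¹) ^ j := by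
    intro y
    rw [g.iteratedFDeriv_comp_right hw y (i := j) (by exact_mod_cast le_top)]
    refine (ContinuousMultilinearMap.norm_compContinuousLinearMap_le _ _).trans ?_
    rw [Finset.prod_const, Finset.card_univ, Fintype.card_fin]
    gcongr
    exact hC j hj _
  have h2 : ∀ y, ‖iteratedFDeriv ℝ j ((R • B) ∘ (w ∘ g)) y‖ ≤ ‖R • B‖ * (C * (R⁻¹) ^ j) := by
    intro y
    refine ((R • B).norm_iteratedFDeriv_comp_left
      ((hw.comp g.contDiff).contDiffAt (x := y)) (n := j) (by exact_mod_cast le_top)).trans ?_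
    gcongr
    exact h1 y
  have e1 : (fun z => (R • B) (w (R⁻¹ • (z - c)))) = fun z => ((R • B) ∘ (w ∘ g)) (z - c) := by
    funext z
    simp [hg]
  rw [e1, iteratedFDeriv_comp_sub]
  refine (h2 _).trans ?_
  have h3 : ‖R • B‖ ≤ R * (δ * R ^ (k - 1)) := by
    rw [norm_smul, Real.norm_eq_abs, abs_of_pos hR]
    gcongr
  have h4 : R ^ k * (R⁻¹) ^ j ≤ 1 := by
    rw [inv_pow, ← div_eq_mul_inv, div_le_one (by positivity)]
    exact pow_le_pow_of_le_one hR.le hR1 hj
  calc ‖R • B‖ * (C * (R⁻¹) ^ j) ≤ (R * (δ * R ^ (k - 1))) * (C * (R⁻¹) ^ j) := by gcongr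
    _ = (C * δ) * ((R * R ^ (k - 1)) * (R⁻¹) ^ j) := by ring
    _ = (C * δ) * (R ^ k * (R⁻¹) ^ j) := by rw [← pow_succ', Nat.sub_add_cancel hk]
    _ ≤ (C * δ) * 1 := by gcongr
    _ = C * δ := mul_one _

/-- **Small perturbations with prescribed derivatives.** -/
theorem exists_bump (ι : Type*) {k : ℕ} (hk : 1 ≤ k) : ∃ C : ℝ, 0 < C ∧
    ∀ (Q : Finset ι) (c : ι → E) (R : ι → ℝ) (B : ι → E →L[ℝ] E) (δ : ℝ), 0 ≤ δ →
      (∀ q ∈ Q, 0 < R q ∧ R q ≤ 1 ∧ ‖B q‖ ≤ δ * R q ^ (k - 1)) →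
      (∀ q ∈ Q, ∀ q' ∈ Q, q ≠ q' → Disjoint (closedBall (c q) (R q)) (closedBall (c q') (R q'))) →
      ∃ u : E → E, ContDiff ℝ ∞ u ∧ (∀ z, (∀ q ∈ Q, z ∉ closedBall (c q) (R q)) → u z = 0) ∧
        (∀ q ∈ Q, ∀ z ∈ closedBall (c q) (R q / 2), u z = B q (z - c q)) ∧
        ∀ j ≤ k, ∀ z, ‖iteratedFDeriv ℝ j u z‖ ≤ C * δ := by
  classical
  obtain ⟨w, hw, hw0, hw1, C, hC, hCw⟩ := exists_model (E := E) k
  refine ⟨C, hC, fun Q c R B δ hδ hQ hdis => ?_⟩
  set v : ι → E → E := fun q z => (R q • B q) (w ((R q)⁻¹ • (z - c q))) with hv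
  have hvs : ∀ q, ContDiff ℝ ∞ (v q) := by
    intro q
    exact (R q • B q).contDiff.comp (hw.comp (contDiff_const.smul (contDiff_id.sub contDiff_const)))
  have hv0 : ∀ q ∈ Q, ∀ z ∉ closedBall (c q) (R q), v q z = 0 := by
    intro q hq z hz
    have hRq := (hQ q hq).1
    have h1 : (R q)⁻¹ • (z - c q) ∉ closedBall (0 : E) 1 := by
      rw [mem_closedBall, dist_eq_norm, not_le] at hz
      rw [mem_closedBall, dist_zero_right, norm_smul, norm_inv, Real.norm_eq_abs, abs_of_pos hRq,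
        not_le, inv_mul_eq_div, lt_div_iff₀ hRq, one_mul]
      exact hz
    simp only [hv, hw0 _ h1, map_zero]
  have hv1 : ∀ q ∈ Q, ∀ z ∈ closedBall (c q) (R q / 2), v q z = B q (z - c q) := by
    intro q hq z hz
    have hRq := (hQ q hq).1
    have h1 : (R q)⁻¹ • (z - c q) ∈ closedBall (0 : E) (1 / 2) := by
      rw [mem_closedBall, dist_eq_norm] at hz
      rw [mem_closedBall, dist_zero_right, norm_smul, norm_inv, Real.norm_eq_abs, abs_of_pos hRq,
        inv_mul_eq_div, div_le_iff₀ hRq]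
      linarith
    simp only [hv, hw1 _ h1, map_smul, smul_apply, smul_smul, mul_inv_cancel₀ hRq.ne', one_smul]

  have hsum1 : ∀ q ∈ Q, ∀ z ∈ closedBall (c q) (R q), ∀ᶠ y in 𝓝 z, ∑ q' ∈ Q, v q' y = v q y := by
    intro q hq z hz
    have h1 : ∀ q' ∈ Q, ∀ᶠ y in 𝓝 z, q' ≠ q → v q' y = 0 := by
      intro q' hq'
      by_cases h : q' = q
      · exact Eventually.of_forall fun y h' => absurd h h'
      · have h2 : z ∉ closedBall (c q') (R q') := fun h3 =>
          (hdis q' hq' q hq h).le_bot ⟨h3, hz⟩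
        filter_upwards [isClosed_closedBall.isOpen_compl.mem_nhds h2] with y hy _
        exact hv0 q' hq' y hy
    filter_upwards [(Filter.eventually_all_finset Q).2 h1] with y hy
    rw [Finset.sum_eq_single q]
    · intro q' hq' hne
      exact hy q' hq' hne
    · intro h
      exact absurd hq h
  have hsum0 : ∀ z, (∀ q ∈ Q, z ∉ closedBall (c q) (R q)) → ∀ᶠ y in 𝓝 z, ∑ q' ∈ Q, v q' y = 0 := by
    intro z hz
    have h1 : ∀ q' ∈ Q, ∀ᶠ y in 𝓝 z, v q' y = 0 := by
      intro q' hq'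
      filter_upwards [isClosed_closedBall.isOpen_compl.mem_nhds (hz q' hq')] with y hy
      exact hv0 q' hq' y hy
    filter_upwards [(Filter.eventually_all_finset Q).2 h1] with y hy
    exact Finset.sum_eq_zero hy
  refine ⟨fun z => ∑ q ∈ Q, v q z, ?_, fun z hz => ?_, fun q hq z hz => ?_, fun j hj z => ?_⟩
  · exact ContDiff.sum fun q _ => hvs q
  · exact (hsum0 z hz).self_of_nhds
  · have hz' : z ∈ closedBall (c q) (R q) := by
      refine closedBall_subset_closedBall ?_ hz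
      have := (hQ q hq).1
      linarith
    exact ((hsum1 q hq z hz').self_of_nhds).trans (hv1 q hq z hz)
  · by_cases hz : ∃ q ∈ Q, z ∈ closedBall (c q) (R q)
    · obtain ⟨q, hq, hzq⟩ := hz
      have h1 := (Filter.EventuallyEq.iteratedFDeriv ℝ (hsum1 q hq z hzq) j).self_of_nhds
      rw [h1]
      exact norm_iteratedFDeriv_scaled hw hCw (hQ q hq).1 (hQ q hq).2.1 hδ (hQ q hq).2.2 hk hj z
    · push Not at hz
      have h1 := (Filter.EventuallyEq.iteratedFDeriv ℝ (f₂ := fun _ : E => (0 : E)) (hsum0 z hz)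
        j).self_of_nhds
      rw [h1]
      have h2 : iteratedFDeriv ℝ j (fun _ : E => (0 : E)) z = 0 := by
        rw [iteratedFDeriv_fun_zero]
        rfl
      rw [h2, norm_zero]
      positivity

end CrS
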