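import Pool.Agent.CrS.Top

/-!
# Convergence in the `C^r` topology implies local convergence
-/

open Set Filter Topology Manifold ContDiff Metric OmSt

set_option linter.unusedSectionVars false

namespace CrS

universe u

/-- Convergence to zero from the convergence of the iterated derivatives. -/
theorem LC.of_tendsto {ι : Type*} {l : Filter ι} {E F : Type u} [NormedAddCommGroup E]
    [NormedSpace ℝ E] [NormedAddCommGroup F] [NormedSpace ℝ F] {k : ℕ} {z₀ : E} {v : ι → E → F}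
    (hv : ∀ᶠ p : ι × E in l ×ˢ 𝓝 z₀, ContDiffAt ℝ k (v p.1) p.2)
    (hb : ∀ j ≤ k, Tendsto (fun p : ι × E => ‖iteratedFDeriv ℝ j (v p.1) p.2‖) (l ×ˢ 𝓝 z₀)
      (𝓝 0)) : LC l k F v (fun _ => 0) z₀ := by
  induction k generalizing F with
  | zero =>
    change Tendsto _ _ (𝓝 (0 : F))
    rw [tendsto_zero_iff_norm_tendsto_zero]
    refine (hb 0 le_rfl).congr fun p => ?_
    rw [norm_iteratedFDeriv_zero]
  | succ k ih =>
    refine ⟨?_, ?_, Eventually.of_forall fun z => differentiableAt_const _, ?_⟩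
    · change Tendsto _ _ (𝓝 (0 : F))
      rw [tendsto_zero_iff_norm_tendsto_zero]
      refine (hb 0 (Nat.zero_le _)).congr fun p => ?_
      rw [norm_iteratedFDeriv_zero]
    · filter_upwards [hv] with p hp
      exact hp.differentiableAt (by simp)
    · have h2 := ih (F := E →L[ℝ] F) (v := fun i => fderiv ℝ (v i)) ?_ ?_
      · refine h2.congr (Eventually.of_forall fun p => rfl) (Eventually.of_forall fun z => ?_)
        exact (fderiv_const_apply (0 : F)).symm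
      · filter_upwards [hv] with p hp
        exact hp.fderiv_right (by norm_cast)
      · intro j hj
        refine (hb (j + 1) (by omega)).congr fun p => ?_
        rw [norm_iteratedFDeriv_fderiv]

variable {E : Type u} [NormedAddCommGroup E] [NormedSpace ℝ E]
  {M : Type*} [TopologicalSpace M] [ChartedSpace E M] {r : ℕ∞} {k : ℕ}
  {ι : Type*} {l : Filter ι} [IsManifold 𝓘(ℝ, E) ∞ M]

theorem contDiffAt_chart' (g : Dyn E M r) (hk : (k : ℕ∞) ≤ r) {φ ψ : OpenPartialHomeomorph M E}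
    (hφ : φ ∈ IsManifold.maximalAtlas 𝓘(ℝ, E) ∞ M)
    (hψ : ψ ∈ IsManifold.maximalAtlas 𝓘(ℝ, E) ∞ M) {z : E} (hz : z ∈ φ.target)
    (hgz : g (φ.symm z) ∈ ψ.source) : ContDiffAt ℝ k (ψ ∘ g ∘ φ.symm) z := by
  have h0 := contDiffAt_chart (V := ℝ) (v := 0) (G := fun p : ℝ × M => g p.2)
    (z := z) (n := r) hφ hψ (g.contMDiff.contMDiffAt.comp _ contMDiffAt_snd) hz hgz
  have h1 : ContDiffAt ℝ r (ψ ∘ g ∘ φ.symm) z := h0.comp z (contDiffAt_const.prodMk contDiffAt_id)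
  exact h1.of_le (by exact_mod_cast hk)

theorem mc_of_tendsto [CompactSpace M] [T2Space M] {G : ι → Dyn E M r} {g : Dyn E M r}
    (hG : Tendsto G l (@nhds _ (crTopology E M r) g)) (hk : (k : ℕ∞) ≤ r) (x : M) :
    MC E l k (fun i => (G i : M → M)) g x := by
  set φ := chartAt E x with hφd
  set ψ := chartAt E (g x) with hψd
  have hφ : φ ∈ IsManifold.maximalAtlas 𝓘(ℝ, E) ∞ M := IsManifold.chart_mem_maximalAtlas x
  have hψ : ψ ∈ IsManifold.maximalAtlas 𝓘(ℝ, E) ∞ M := IsManifold.chart_mem_maximalAtlas (g x)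
  have hxs : x ∈ φ.source := mem_chart_source E x
  have hgs : g x ∈ ψ.source := mem_chart_source E (g x)
  obtain ⟨K, hKx, hKc, hKs⟩ := exists_mem_nhds_isClosed_subset
    (inter_mem (φ.open_source.mem_nhds hxs)
      (g.continuous.continuousAt (ψ.open_source.mem_nhds hgs)) :
      φ.source ∩ g ⁻¹' ψ.source ∈ 𝓝 x)
  have hK : IsCompact K := hKc.isCompact
  have hmem : ∀ ε : ℝ, 0 < ε → ∀ᶠ i in l, G i ∈ crNhd g φ ψ K k ε := by
    intro ε hε
    let := crTopology E M r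
    refine hG ((TopologicalSpace.isOpen_generateFrom_of_mem ?_ : IsOpen (crNhd g φ ψ K k ε)).mem_nhds
      ⟨fun y hy => (hKs hy).2, fun y _ j _ => by rw [sub_self, norm_zero]; exact hε⟩)
    exact ⟨g, φ, ψ, K, k, ε, hφ, hψ, hK, fun y hy => (hKs hy).1, fun y hy => (hKs hy).2, hk, hε,
      rfl⟩
  have hsymm : Tendsto φ.symm (𝓝 (φ x)) (𝓝 x) := by
    have := (φ.continuousAt_symm (φ.map_source hxs)).tendsto
    rwa [φ.left_inv hxs] at this
  have hKz : ∀ᶠ z in 𝓝 (φ x), z ∈ φ.target ∧ φ.symm z ∈ K :=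
    Filter.Eventually.and (φ.open_target.mem_nhds (φ.map_source hxs)) (hsymm.eventually hKx)
  -- the derivatives of the difference
  have hdiff : ∀ j ≤ k, Tendsto (fun p : ι × E => ‖iteratedFDeriv ℝ j
      (fun z => (ψ ∘ G p.1 ∘ φ.symm) z - (ψ ∘ g ∘ φ.symm) z) p.2‖) (l ×ˢ 𝓝 (φ x)) (𝓝 0) := by
    intro j hj
    rw [Metric.tendsto_nhds]
    intro ε hε
    filter_upwards [tendsto_fst.eventually (hmem ε hε), tendsto_snd.eventually hKz] with p hp hp2
    obtain ⟨h1, h2⟩ := hp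
    have h3 := h2 _ hp2.2 j hj
    rw [φ.right_inv hp2.1] at h3
    have c1 : ContDiffAt ℝ j (ψ ∘ G p.1 ∘ φ.symm) p.2 :=
      contDiffAt_chart' (G p.1) ((by exact_mod_cast hj : (j : ℕ∞) ≤ k).trans hk) hφ hψ hp2.1
        (h1 hp2.2)
    have c2 : ContDiffAt ℝ j (ψ ∘ g ∘ φ.symm) p.2 :=
      contDiffAt_chart' g ((by exact_mod_cast hj : (j : ℕ∞) ≤ k).trans hk) hφ hψ hp2.1
        (hKs hp2.2).2
    have e1 : iteratedFDeriv ℝ j (fun z => (ψ ∘ G p.1 ∘ φ.symm) z - (ψ ∘ g ∘ φ.symm) z) p.2 =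
        iteratedFDeriv ℝ j (ψ ∘ G p.1 ∘ φ.symm) p.2 - iteratedFDeriv ℝ j (ψ ∘ g ∘ φ.symm) p.2 :=
      iteratedFDeriv_sub_apply c1 c2
    rw [e1, dist_zero_right, norm_norm]
    exact h3
  have hLC0 : LC l k E (fun i z => (ψ ∘ G i ∘ φ.symm) z - (ψ ∘ g ∘ φ.symm) z) (fun _ => 0)
      (φ x) := by
    refine LC.of_tendsto ?_ hdiff
    filter_upwards [tendsto_fst.eventually (hmem 1 one_pos), tendsto_snd.eventually hKz]
      with p hp hp2
    exact (contDiffAt_chart' (G p.1) hk hφ hψ hp2.1 (hp.1 hp2.2)).sub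
      (contDiffAt_chart' g hk hφ hψ hp2.1 (hKs hp2.2).2)
  have hLC1 : LC l k E (fun i => ψ ∘ G i ∘ φ.symm) (ψ ∘ g ∘ φ.symm) (φ x) := by
    refine (hLC0.add (LC.const (contDiffAt_chart' g hk hφ hψ (φ.map_source hxs) (by
      rw [φ.left_inv hxs]; exact hgs)))).congr (Eventually.of_forall fun p => ?_)
      (Eventually.of_forall fun z => ?_)
    · simp only [sub_add_cancel]
    · simp only [zero_add]
  refine ⟨?_, g.continuous.continuousAt, φ, ψ, hφ, hψ, hxs, hgs, hLC1⟩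
  have c0 : Tendsto (fun p : ι × M => (p.1, φ p.2)) (l ×ˢ 𝓝 x) (l ×ˢ 𝓝 (φ x)) :=
    tendsto_fst.prodMk ((φ.continuousAt hxs).tendsto.comp tendsto_snd)
  have h1 : Tendsto (fun p : ι × M => (ψ ∘ G p.1 ∘ φ.symm) (φ p.2)) (l ×ˢ 𝓝 x)
      (𝓝 (ψ (g x))) := by
    have := hLC1.tendsto.comp c0
    simp only [Function.comp_apply, φ.left_inv hxs] at this
    exact this
  have hsymm' : Tendsto ψ.symm (𝓝 (ψ (g x))) (𝓝 (g x)) := by
    have := (ψ.continuousAt_symm (ψ.map_source hgs)).tendsto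
    rwa [ψ.left_inv hgs] at this
  refine (hsymm'.comp h1).congr' ?_
  filter_upwards [tendsto_fst.eventually (hmem 1 one_pos), tendsto_snd.eventually hKx]
    with p hp hp2
  have hp2 : p.2 ∈ K := hp2
  simp only [Function.comp_apply]
  rw [φ.left_inv (hKs hp2).1, ψ.left_inv (hp.1 hp2)]

end CrS
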