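import Pool.Agent.OmSt.Finite

/-!
# Local perturbations of `Ω`-stable maps do not create periodic orbits
-/

open Set Filter Topology Manifold ContDiff Metric OmSt

set_option linter.unusedSectionVars false

namespace CrS

variable {E : Type*} [NormedAddCommGroup E] [NormedSpace ℝ E]
  {M : Type*} [TopologicalSpace M] [ChartedSpace E M] {r : ℕ∞} [IsManifold 𝓘(ℝ, E) ∞ M]

/-- An orbit segment which avoids the set where the maps differ. -/
theorem iterate_eq_of_avoid {f g : M → M} {K : Set M} (hfg : ∀ x ∉ K, g x = f x) {q : M} {n : ℕ}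
    (h : ∀ i < n, f^[i] q ∉ K) : g^[n] q = f^[n] q := by
  induction n with
  | zero => rfl
  | succ n ih =>
    rw [Function.iterate_succ_apply', Function.iterate_succ_apply', ih fun i hi => h i (by omega)]
    exact hfg _ (h n (Nat.lt_succ_self n))

/-- **Local perturbations do not create periodic orbits.** If two maps of the `Ω`-stable set `N`
differ only on `K` and one of them has a periodic point of period `n` in `K`, so has the
other one. -/
theorem Stab.no_creation [FiniteDimensional ℝ E] [CompactSpace M] [T2Space M]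
    {N : Set (Dyn E M r)} (hN : Stab N) (hr : 1 ≤ r) {f g : Dyn E M r} (hf : f ∈ N) (hg : g ∈ N)
    {K : Set M} (hfg : ∀ x ∉ K, g x = f x) {n : ℕ} (hn : 0 < n) {p : M} (hp : p ∈ K)
    (hgp : g^[n] p = p) : ∃ q ∈ K, f^[n] q = q := by
  by_contra hcon
  push Not at hcon
  have h1 : ∀ q, f^[n] q = q → ∀ i, f^[i] q ∉ K := by
    intro q hq i hi
    refine hcon _ hi ?_
    rw [← Function.iterate_add_apply, add_comm, Function.iterate_add_apply, hq]
  have hsub : {x | f^[n] x = x} ⊆ {x | g^[n] x = x} := by
    intro q hq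
    have hq : f^[n] q = q := hq
    change g^[n] q = q
    rw [iterate_eq_of_avoid hfg fun i _ => h1 q hq i, hq]
  have hss : {x | f^[n] x = x} ⊂ {x | g^[n] x = x} :=
    ⟨hsub, fun h => h1 p (h hgp) 0 hp⟩
  have h2 := hN.encard_eq hf hg (fun S => n ∈ S) (fun S hS => ⟨n, hn, hS⟩)
  simp only [mem_ofPred_eq] at h2
  exact absurd h2 ((hN.fix_finite hr n hn f hf).encard_lt_encard hss).ne

end CrS
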