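import Pool.Agent.CrS.Setup2
import Pool.Agent.CrS.Count
import Pool.Agent.CrS.Conv

/-!
# A closing lemma without perturbation
-/

open Set Filter Topology Manifold ContDiff Metric OmSt
open scoped NNReal

set_option linter.unusedSectionVars false

namespace CrS

universe u

variable {E : Type u} [NormedAddCommGroup E] [NormedSpace ℝ E]
  {M : Type*} [MetricSpace M] [ChartedSpace E M] {r : ℕ∞} [IsManifold 𝓘(ℝ, E) ∞ M]

/-- The translation which closes an orbit segment. -/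
theorem Setup2.exists_u [FiniteDimensional ℝ E] {s : Finset M} {K : M → Set M} {ρ₀ C₀ κ : ℝ}
    (hS : Setup2 (E := E) s K ρ₀ C₀ κ) (k : ℕ) : ∃ C : ℝ, 0 < C ∧ ∀ b ∈ s, ∀ z y : M,
      closedBall z ρ₀ ⊆ K b → ∀ (ρ c : ℝ), 0 < ρ → ρ ≤ 1 → 0 ≤ c → c ≤ ρ₀ →
      dist z y ≤ c * ρ ^ k →
      ∃ u : E → E, ContDiff ℝ ∞ u ∧ (∀ w ∉ chartAt E b '' K b, u w = 0) ∧
        (∀ j ≤ k, ∀ w, ‖iteratedFDeriv ℝ j u w‖ ≤ C * c) ∧
        glue (chartAt E b) (fun w => w + u w) z = y ∧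
        ∀ v ∉ closedBall z (ρ / 4), glue (chartAt E b) (fun w => w + u w) v = v := by
  obtain ⟨C, hC, hbump⟩ := exists_bump_translation (E := E) k
  have hC₀ : 0 < C₀ := one_pos.trans_le hS.one_le
  have hκ := hS.pos
  have hκ1 : κ * (4 * C₀) ≤ 1 := by
    have := hS.le
    rwa [le_div_iff₀ (by positivity)] at this
  have hκ2 : κ ≤ 1 := by nlinarith [hS.one_le]
  refine ⟨C * (C₀ / κ ^ k), by positivity, fun b hb z y hz ρ c hρ hρ1 hc hcρ hzy => ?_⟩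
  set e := chartAt E b with he
  have hρk : ρ ^ k ≤ 1 := pow_le_one₀ hρ.le hρ1
  have hzK : z ∈ K b := hz (mem_closedBall_self hS.cov.pos.le)
  have hyK : y ∈ K b := hz (by
    rw [mem_closedBall, dist_comm]
    nlinarith)
  have hzs := hS.cov.src b hb hzK
  have hys := hS.cov.src b hb hyK
  obtain ⟨u, hu, hu0, hu1, hub⟩ := hbump (e z) (κ * ρ) (e y - e z) (by positivity) (by nlinarith)
  have hball : closedBall (e z) (κ * ρ) ⊆ e '' K b :=
    (closedBall_subset_closedBall (by nlinarith)).trans (hS.ball b hb z hz)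
  have ha : ‖e y - e z‖ ≤ C₀ * (c * ρ ^ k) := by
    rw [norm_sub_rev]
    refine (hS.lip' b hb z hzK y hyK).trans ?_
    gcongr
  refine ⟨u, hu, fun w hw => hu0 w fun h => hw (hball h), fun j hj w => ?_, ?_, fun v hv => ?_⟩
  · refine (hub j hj w).trans ?_
    have h1 : ‖e y - e z‖ / (κ * ρ) ^ k ≤ C₀ / κ ^ k * c := by
      rw [div_le_iff₀ (by positivity)]
      refine ha.trans (le_of_eq ?_)
      rw [mul_pow]
      field_simp
    calc C * (‖e y - e z‖ / (κ * ρ) ^ k) ≤ C * (C₀ / κ ^ k * c) := by gcongr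
      _ = C * (C₀ / κ ^ k) * c := by ring
  · rw [glue_of_mem _ _ hzs, hu1, add_sub_cancel, e.left_inv hys]
  · by_cases hvs : v ∈ e.source
    · have h1 : e v ∉ closedBall (e z) (κ * ρ) := by
        intro h
        obtain ⟨v', hv'K, hv'⟩ := hball h
        have h2 : v' = v := e.injOn (hS.cov.src b hb hv'K) hvs hv'
        rw [h2] at hv'K
        apply hv
        have h3 := hS.lip b hb v hv'K z hzK
        rw [mem_closedBall, dist_eq_norm] at h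
        rw [mem_closedBall]
        have h4 : C₀ * ‖e v - e z‖ ≤ C₀ * (κ * ρ) := by gcongr
        nlinarith
      rw [glue_of_mem _ _ hvs, hu0 _ h1, add_zero, e.left_inv hvs]
    · exact glue_of_not_mem _ _ hvs

/-- **Closing without perturbation**, uniformly near an `Ω`-stable map. -/
theorem close [FiniteDimensional ℝ E] [CompactSpace M] {N : Set (Dyn E M r)} (hN : Stab N)
    (hr : 1 ≤ r) {f : Dyn E M r} (hf : f ∈ N) (hd : BiLipCharts E M) :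
    ∃ (k : ℕ) (c : ℝ) (N' : Set (Dyn E M r)), 1 ≤ k ∧ (k : ℕ∞) ≤ r ∧ 0 < c ∧
      IsOpen[crTopology E M r] N' ∧ f ∈ N' ∧ ∀ g ∈ N', ∀ (y : M) (n : ℕ) (ρ : ℝ), 0 < n →
      0 < ρ → ρ ≤ 1 → (∀ i, 0 < i → i < n → ρ ≤ dist (g^[i] y) y) →
      dist (g^[n] y) y ≤ c * ρ ^ k → ∃ p, g^[n] p = p ∧ dist p y ≤ ρ := by
  classical
  obtain ⟨s, K, ρ₀, C₀, κ, hS⟩ := exists_setup2 (E := E) hd
  have h1 : ∀ q, ∃ b, b ∈ s ∧ closedBall q ρ₀ ⊆ K b := fun q => hS.cov.leb q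
  choose bq hbq1 hbq2 using h1
  obtain ⟨k₀, hk₀, hmem⟩ := eventually_mem_of_mc (ι := Dyn E M r × ℝ) hN.isOpen hf
  have hk : ((max k₀ 1 : ℕ) : ℕ∞) ≤ r := by
    rcases le_total k₀ 1 with h | h
    · rw [max_eq_right h]
      exact_mod_cast hr
    · rwa [max_eq_left h]
  set k := max k₀ 1 with hkdef
  have hk1 : 1 ≤ k := le_max_right _ _
  obtain ⟨C, hC, hexu⟩ := hS.exists_u k
  by_contra hcon
  push Not at hcon
  let top := crTopology E M r
  let P : Dyn E M r × ℝ → M → ℕ → ℝ → Prop := fun x y n ρ => 0 < n ∧ 0 < ρ ∧ ρ ≤ 1 ∧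
    (∀ i, 0 < i → i < n → ρ ≤ dist (x.1^[i] y) y) ∧ dist (x.1^[n] y) y ≤ x.2 * ρ ^ k ∧
    ∀ p, x.1^[n] p = p → ρ < dist p y
  let bad : Dyn E M r × ℝ → Prop := fun x => 0 < x.2 ∧ x.2 ≤ ρ₀ ∧ x.2 ≤ 1 / 2 ∧
    ∃ y n ρ, P x y n ρ
  have hsmall : ∀ᶠ c in 𝓝[>] (0 : ℝ), 0 < c ∧ c ≤ ρ₀ ∧ c ≤ 1 / 2 := by
    have h3 : ∀ᶠ c in 𝓝[>] (0 : ℝ), c ≤ ρ₀ :=
      Filter.Eventually.filter_mono nhdsWithin_le_nhds (Iic_mem_nhds hS.cov.pos)
    have h4 : ∀ᶠ c in 𝓝[>] (0 : ℝ), c ≤ 1 / 2 :=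
      Filter.Eventually.filter_mono nhdsWithin_le_nhds (Iic_mem_nhds (by norm_num))
    filter_upwards [self_mem_nhdsWithin, h3, h4] with c a1 a2 a3
    exact ⟨a1, a2, a3⟩
  have hfreq : ∃ᶠ x in 𝓝 f ×ˢ 𝓝[>] (0 : ℝ), x ∈ {x | bad x} := by
    intro hev
    obtain ⟨pa, ha, pb, hb, hab⟩ := Filter.eventually_prod_iff.1 hev
    obtain ⟨N', hN'1, hN'2, hN'3⟩ := mem_nhds_iff.1 ha
    obtain ⟨c, hc1, hc2⟩ := (hb.and hsmall).exists
    obtain ⟨g, hg, y, n, ρ, a1, a2, a3, a4, a5, a6⟩ := hcon k c N' hk1 hk hc2.1 hN'2 hN'3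
    exact hab (hN'1 hg) hc1 ⟨hc2.1, hc2.2.1, hc2.2.2, y, n, ρ, a1, a2, a3, a4, a5, a6⟩
  set l := (𝓝 f ×ˢ 𝓝[>] (0 : ℝ)) ⊓ 𝓟 {x | bad x} with hl
  have hne : l.NeBot := Filter.frequently_mem_iff_neBot.1 hfreq
  have hzero : ∀ (j : ℕ) (z : E), iteratedFDeriv ℝ j (fun _ : E => (0 : E)) z = 0 := by
    intro j z
    rw [iteratedFDeriv_fun_zero]
    rfl
  -- the perturbations
  have h2 : ∀ x : Dyn E M r × ℝ, ∃ (z : M) (u : E → E), ContDiff ℝ ∞ u ∧
      (∀ w ∉ chartAt E (bq z) '' K (bq z), u w = 0) ∧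
      (∀ j ≤ k, ∀ w, ‖iteratedFDeriv ℝ j u w‖ ≤ C * |x.2|) ∧
      (bad x → ∃ y n ρ, P x y n ρ ∧ z = x.1^[n] y ∧
        glue (chartAt E (bq z)) (fun w => w + u w) z = y ∧
        ∀ v ∉ closedBall z (ρ / 4), glue (chartAt E (bq z)) (fun w => w + u w) v = v) := by
    intro x
    by_cases hx : bad x
    · obtain ⟨b1, b2, b3, y, n, ρ, hP⟩ := hx
      obtain ⟨a1, a2, a3, a4, a5, a6⟩ := hP
      obtain ⟨u, c1, c2, c3, c4, c5⟩ := hexu (bq (x.1^[n] y)) (hbq1 _) (x.1^[n] y) y (hbq2 _) ρ x.2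
        a2 a3 b1.le b2 a5
      refine ⟨x.1^[n] y, u, c1, c2, ?_, fun _ => ⟨y, n, ρ, ⟨a1, a2, a3, a4, a5, a6⟩, rfl, c4, c5⟩⟩
      rwa [abs_of_pos b1]
    · obtain ⟨z⟩ : Nonempty M := by
        obtain ⟨x, hx⟩ := hfreq.exists
        obtain ⟨-, -, -, y, -⟩ := hx
        exact ⟨y⟩
      refine ⟨z, fun _ => 0, contDiff_const, fun _ _ => rfl, fun j _ w => ?_, fun h => absurd h hx⟩
      rw [hzero, norm_zero]
      positivity
  choose z u hu hu0 hub hbad using h2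
  have hl1 : Tendsto (fun x : Dyn E M r × ℝ => x.1) l (𝓝 f) :=
    tendsto_fst.mono_left inf_le_left
  have hl2 : Tendsto (fun x : Dyn E M r × ℝ => x.2) l (𝓝 0) :=
    (tendsto_snd.mono_left inf_le_left).mono_right nhdsWithin_le_nhds
  have hεl : Tendsto (fun x : Dyn E M r × ℝ => C * |x.2|) l (𝓝 0) := by
    have := (hl2.abs).const_mul C
    rwa [abs_zero, mul_zero] at this
  obtain ⟨Ψ, hΨ1, hΨ2⟩ := hS.exists_pert hk1 (bq := fun x => bq (z x)) hu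
    (fun x _ => hu0 x) hub hεl s le_rfl
  have hG : ∀ x, MC E l k₀ (fun y => (pert y.1 (Ψ y) : M → M)) f x := by
    intro x
    exact (MC.comp (G := fun y : Dyn E M r × ℝ => (y.1 : M → M)) (G₀ := f)
      (H := fun y => (Ψ y : M → M)) (H₀ := id) (mc_of_tendsto hl1 hk (id x)) (hΨ1 x)).mono
      (le_max_left k₀ 1)
  have hbadl : ∀ᶠ x in l, bad x := Filter.mem_inf_of_right (mem_principal_self _)
  have hNl : ∀ᶠ x : Dyn E M r × ℝ in l, x.1 ∈ N := hl1.eventually (hN.isOpen.mem_nhds hf)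
  obtain ⟨x, ⟨⟨hi1, hi2⟩, hi3⟩, hi4⟩ := (((hmem l (fun y => pert y.1 (Ψ y)) hG).and hΨ2).and
    hbadl).and hNl |>.exists
  obtain ⟨y, n, ρ, ⟨a1, a2, a3, a4, a5, a6⟩, hzx, c1, c2⟩ := hbad x hi3
  obtain ⟨b1, b2, b3, -⟩ := hi3
  set g := x.1 with hg
  set G := pert g (Ψ x) with hGdef
  have hΨx : ∀ v, Ψ x v = glue (chartAt E (bq (z x))) (fun w => w + u x w) v :=
    hi2.1 (hbq1 _)
  have hρk : ρ ^ k ≤ ρ := by
    calc ρ ^ k ≤ ρ ^ 1 := pow_le_pow_of_le_one a2.le a3 hk1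
      _ = ρ := pow_one ρ
  have hzy : dist (z x) y ≤ ρ / 2 := by
    rw [hzx]
    refine a5.trans ?_
    nlinarith [pow_pos a2 k]
  -- the perturbed map agrees with `g` off the ball
  have hoff : ∀ v ∉ closedBall (z x) (ρ / 4), G v = g v := by
    intro v hv
    rw [hGdef, pert_apply, hΨx, c2 v hv]
  have hGz : G (z x) = g y := by
    rw [hGdef, pert_apply, hΨx, c1]
  have hit : ∀ i, i + 1 ≤ n → G^[i + 1] (z x) = g^[i + 1] y := by
    intro i
    induction i with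
    | zero =>
      intro _
      simpa using hGz
    | succ i ih =>
      intro hi
      rw [Function.iterate_succ_apply' G, ih (by omega), Function.iterate_succ_apply' g (i + 1)]
      refine hoff _ fun hmem => ?_
      rw [mem_closedBall] at hmem
      have h3 := a4 (i + 1) (by omega) (by omega)
      have h4 := dist_triangle (g^[i + 1] y) (z x) y
      linarith
  have hper : G^[n] (z x) = z x := by
    obtain ⟨i, rfl⟩ : ∃ i, n = i + 1 := ⟨n - 1, by omega⟩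
    rw [hit i le_rfl, hzx]
  obtain ⟨q, hq1, hq2⟩ := Stab.no_creation hN hr hi4 hi1 hoff a1
    (mem_closedBall_self (by positivity)) hper
  have h5 := a6 q hq2
  rw [mem_closedBall] at hq1
  have h6 := dist_triangle q (z x) y
  linarith

end CrS
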