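import Pool.Agent.CrS.Close

/-!
# The closing lemma with several returns
-/

open Set Filter Topology Manifold ContDiff Metric OmSt
open scoped NNReal

set_option linter.unusedSectionVars false

namespace CrS

/-- From closest returns to a bounded number of returns. -/
theorem close_returns {X : Type*} [MetricSpace X] {g : X → X} {k : ℕ} {c : ℝ} (hk : 1 ≤ k)
    (hc : 0 < c) (hc1 : c < 1) (h : ∀ (y : X) (n : ℕ) (ρ : ℝ), 0 < n → 0 < ρ → ρ ≤ 1 →
      (∀ i, 0 < i → i < n → ρ ≤ dist (g^[i] y) y) → dist (g^[n] y) y ≤ c * ρ ^ k →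
      ∃ p, g^[n] p = p ∧ dist p y ≤ ρ) (m : ℕ) : ∀ (y : X) (n : ℕ) (ρ : ℝ), 0 < n → 0 < ρ →
      ρ ≤ 1 → ((Finset.Ioo 0 n).filter fun i => dist (g^[i] y) y < ρ).card ≤ m →
      dist (g^[n] y) y ≤ (fun t => c * t ^ k)^[m + 1] ρ →
      ∃ j, 0 < j ∧ j ≤ n ∧ dist (g^[j] y) y < ρ ∧ ∃ p, g^[j] p = p ∧ dist p y ≤ ρ := by
  have hT : ∀ ρ : ℝ, 0 < ρ → ρ ≤ 1 → 0 < c * ρ ^ k ∧ c * ρ ^ k < ρ := by
    intro ρ h0 h1
    have h2 : ρ ^ k ≤ ρ := by
      calc ρ ^ k ≤ ρ ^ 1 := pow_le_pow_of_le_one h0.le h1 hk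
        _ = ρ := pow_one ρ
    have h3 : 0 < ρ ^ k := by positivity
    exact ⟨by positivity, by nlinarith⟩
  have hTm : ∀ (m : ℕ) (ρ : ℝ), 0 < ρ → ρ ≤ 1 → (fun t => c * t ^ k)^[m] ρ ≤ ρ := by
    intro m
    induction m with
    | zero => exact fun ρ _ _ => le_rfl
    | succ m ih =>
      intro ρ h0 h1
      rw [Function.iterate_succ_apply]
      obtain ⟨h2, h3⟩ := hT ρ h0 h1
      exact (ih _ h2 (h3.le.trans h1)).trans h3.le
  induction m with
  | zero =>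
    intro y n ρ hn h0 h1 hcard hdist
    have hdist : dist (g^[n] y) y ≤ c * ρ ^ k := hdist
    have hemp : ∀ i, 0 < i → i < n → ρ ≤ dist (g^[i] y) y := by
      intro i hi hin
      by_contra hlt
      push Not at hlt
      have h2 : i ∈ (Finset.Ioo 0 n).filter fun i => dist (g^[i] y) y < ρ :=
        Finset.mem_filter.2 ⟨Finset.mem_Ioo.2 ⟨hi, hin⟩, hlt⟩
      have h3 := Finset.card_pos.2 ⟨i, h2⟩
      omega
    exact ⟨n, hn, le_rfl, hdist.trans_lt (hT ρ h0 h1).2, h y n ρ hn h0 h1 hemp hdist⟩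
  | succ m ih =>
    intro y n ρ hn h0 h1 hcard hdist
    obtain ⟨h2, h3⟩ := hT ρ h0 h1
    set A := (Finset.Ioo 0 n).filter fun i => dist (g^[i] y) y < ρ with hA
    have hdist' : dist (g^[n] y) y ≤ (fun t => c * t ^ k)^[m + 1] (c * ρ ^ k) := by
      rw [Function.iterate_succ_apply] at hdist
      exact hdist
    by_cases hex : ∃ i ∈ A, c * ρ ^ k ≤ dist (g^[i] y) y
    · -- a return which is not close
      obtain ⟨i, hiA, hi⟩ := hex
      have hsub : ((Finset.Ioo 0 n).filter fun i => dist (g^[i] y) y < c * ρ ^ k) ⊂ A := by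
        refine ⟨fun j hj => ?_, fun hsub => ?_⟩
        · obtain ⟨a, b⟩ := Finset.mem_filter.1 hj
          exact Finset.mem_filter.2 ⟨a, b.trans h3⟩
        · obtain ⟨-, b⟩ := Finset.mem_filter.1 (hsub hiA)
          linarith
      have hcard' := Finset.card_lt_card hsub
      obtain ⟨j, a1, a2, a3, p, a4, a5⟩ := ih y n (c * ρ ^ k) hn h2 (h3.le.trans h1)
        (by omega) hdist'
      exact ⟨j, a1, a2, a3.trans h3, p, a4, a5.trans h3.le⟩
    · push Not at hex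
      by_cases hne : A.Nonempty
      · -- the first return
        have hmin := Finset.min'_mem A hne
        set j := A.min' hne with hj
        obtain ⟨hj1, hj2⟩ := Finset.mem_filter.1 hmin
        obtain ⟨hj3, hj4⟩ := Finset.mem_Ioo.1 hj1
        refine ⟨j, hj3, hj4.le, hj2, h y j ρ hj3 h0 h1 (fun i hi hij => ?_) (hex j hmin).le⟩
        by_contra hlt
        push Not at hlt
        have h5 : i ∈ A := Finset.mem_filter.2 ⟨Finset.mem_Ioo.2 ⟨hi, hij.trans hj4⟩, hlt⟩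
        exact absurd (Finset.min'_le A i h5) (not_le.2 hij)
      · have hemp : ∀ i, 0 < i → i < n → ρ ≤ dist (g^[i] y) y := by
          intro i hi hin
          by_contra hlt
          push Not at hlt
          exact hne ⟨i, Finset.mem_filter.2 ⟨Finset.mem_Ioo.2 ⟨hi, hin⟩, hlt⟩⟩
        have h4 : dist (g^[n] y) y ≤ c * ρ ^ k :=
          hdist'.trans (hTm _ _ h2 (h3.le.trans h1))
        exact ⟨n, hn, le_rfl, h4.trans_lt h3, h y n ρ hn h0 h1 hemp h4⟩

universe u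

variable {E : Type u} [NormedAddCommGroup E] [NormedSpace ℝ E]
  {M : Type*} [MetricSpace M] [ChartedSpace E M] {r : ℕ∞} [IsManifold 𝓘(ℝ, E) ∞ M]

/-- **Closing without perturbation**, with several returns. -/
theorem main2 [FiniteDimensional ℝ E] [CompactSpace M] {N : Set (Dyn E M r)} (hN : Stab N)
    (hr : 1 ≤ r) {f : Dyn E M r} (hf : f ∈ N) (hd : BiLipCharts E M) :
    ∃ (k : ℕ) (c : ℝ) (N' : Set (Dyn E M r)), 1 ≤ k ∧ (k : ℕ∞) ≤ r ∧ 0 < c ∧ c < 1 ∧
      IsOpen[crTopology E M r] N' ∧ f ∈ N' ∧ ∀ g ∈ N', ∀ (y : M) (n m : ℕ) (ρ : ℝ), 0 < n →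
      0 < ρ → ρ ≤ 1 → ((Finset.Ioo 0 n).filter fun i => dist (g^[i] y) y < ρ).card ≤ m →
      dist (g^[n] y) y ≤ (fun t => c * t ^ k)^[m + 1] ρ →
      ∃ j, 0 < j ∧ j ≤ n ∧ dist (g^[j] y) y < ρ ∧ ∃ p, g^[j] p = p ∧ dist p y ≤ ρ := by
  obtain ⟨k, c, N', hk1, hkr, hc, hN', hfN', h⟩ := close hN hr hf hd
  refine ⟨k, min c (1 / 2), N', hk1, hkr, by positivity,
    (min_le_right _ _).trans_lt (by norm_num), hN', hfN', fun g hg y n m ρ => ?_⟩
  refine close_returns hk1 (by positivity) ((min_le_right _ _).trans_lt (by norm_num))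
    (fun y n ρ hn h0 h1 h2 h3 => h g hg y n ρ hn h0 h1 h2 (h3.trans ?_)) m y n ρ
  gcongr
  exact min_le_left _ _

end CrS
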