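import Pool.Agent.OmSt.LinAlg2
import Pool.Agent.OmSt.Dich

/-!
# Complex eigenvalues of hyperbolic maps
-/

open Set Filter Topology Metric OmSt

set_option linter.unusedSectionVars false

namespace CrS

variable {E : Type*} [NormedAddCommGroup E] [NormedSpace ℝ E] [FiniteDimensional ℝ E]

/-- `z` is a complex root of the characteristic polynomial of the real linear map `T`. -/
def Eig (T : E →L[ℝ] E) (z : ℂ) : Prop :=
  ((T : E →ₗ[ℝ] E).charpoly.map (algebraMap ℝ ℂ)).IsRoot z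

theorem charpoly_cT (T : E →ₗ[ℝ] E) : (cT T).charpoly = T.charpoly.map (algebraMap ℝ ℂ) := by
  unfold cT
  rw [Matrix.charpoly_mulVecLin, Matrix.charpoly_map, LinearMap.charpoly_toMatrix]

theorem Eig.iff {T : E →L[ℝ] E} {z : ℂ} :
    Eig T z ↔ ∃ Z : CV E, Z ≠ 0 ∧ cT (T : E →ₗ[ℝ] E) Z = z • Z := by
  unfold Eig
  rw [← charpoly_cT, ← Module.End.hasEigenvalue_iff_isRoot_charpoly]
  constructor
  · intro h
    obtain ⟨Z, hZ, hZ0⟩ := h.exists_hasEigenvector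
    exact ⟨Z, hZ0, Module.End.mem_eigenspace_iff.1 hZ⟩
  · rintro ⟨Z, hZ0, hZ⟩
    exact Module.End.hasEigenvalue_of_hasEigenvector ⟨Module.End.mem_eigenspace_iff.2 hZ, hZ0⟩

theorem cT_smul (a : ℝ) (T : E →ₗ[ℝ] E) (Z : CV E) : cT (a • T) Z = (a : ℂ) • cT T Z := by
  funext i
  rw [cT_apply, Pi.smul_apply, cT_apply, smul_eq_mul, Finset.mul_sum]
  refine Finset.sum_congr rfl fun j _ => ?_
  rw [map_smul, Matrix.smul_apply, smul_eq_mul, Complex.ofReal_mul, mul_assoc]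

theorem Eig.smul {T : E →L[ℝ] E} {z : ℂ} (h : Eig T z) (a : ℝ) : Eig (a • T) (a * z) := by
  rw [Eig.iff] at h ⊢
  obtain ⟨Z, hZ0, hZ⟩ := h
  refine ⟨Z, hZ0, ?_⟩
  have h1 := cT_smul a (T : E →ₗ[ℝ] E) Z
  rw [hZ, smul_smul] at h1
  exact h1

theorem Eig.ne_zero {T T' : E →L[ℝ] E} (h : T' * T = 1) {z : ℂ} (hz : Eig T z) : z ≠ 0 := by
  rintro rfl
  obtain ⟨Z, hZ0, hZ⟩ := Eig.iff.1 hz
  apply hZ0
  have h1 : cT (T' : E →ₗ[ℝ] E) * cT (T : E →ₗ[ℝ] E) = 1 := by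
    rw [← cT_mul, ← cT_one]
    congr 1
    ext v
    exact congrArg (fun L : E →L[ℝ] E => L v) h
  calc Z = (cT (T' : E →ₗ[ℝ] E) * cT (T : E →ₗ[ℝ] E)) Z := by rw [h1]; rfl
    _ = cT (T' : E →ₗ[ℝ] E) (cT (T : E →ₗ[ℝ] E) Z) := rfl
    _ = 0 := by rw [hZ, zero_smul, map_zero]

theorem pow_reE {T : E →L[ℝ] E} {z : ℂ} {Z : CV E} (hZ : cT (T : E →ₗ[ℝ] E) Z = z • Z) (n : ℕ) :
    (T ^ n) (reE Z) = reE (z ^ n • Z) := by
  induction n with
  | zero => simp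
  | succ n ih =>
    rw [pow_succ', mul_apply_eq_comp, ih]
    have h1 := re_cT (T : E →ₗ[ℝ] E) (z ^ n • Z)
    rw [map_smul, hZ, smul_smul, ← pow_succ] at h1
    exact h1.symm

theorem IsHyp.reE_eq_zero {T : E →L[ℝ] E} (hT : IsHyp T) {z : ℂ} (hz : ‖z‖ = 1) {Z : CV E}
    (hZ : cT (T : E →ₗ[ℝ] E) Z = z • Z) : reE Z = 0 := by
  obtain ⟨T', P, c, μ, hTT', hT'T, hPP, hPT, hc, hμ0, hμ1, hb⟩ := hT
  obtain ⟨C', hC', hb'⟩ := norm_reE_le (E := E)
  have hz0 : z ≠ 0 := by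
    rintro rfl
    simp at hz
  have hcan : ∀ k : ℕ, T' ^ k * T ^ k = 1 := by
    intro k
    have hcomm : Commute T' T := by rw [Commute, SemiconjBy, hTT', hT'T]
    rw [← hcomm.mul_pow, hT'T, one_pow]
  have hcan' : ∀ k : ℕ, T ^ k * T' ^ k = 1 := by
    intro k
    have hcomm : Commute T T' := by rw [Commute, SemiconjBy, hTT', hT'T]
    rw [← hcomm.mul_pow, hTT', one_pow]
  have hPTn : ∀ k : ℕ, P * T ^ k = T ^ k * P := fun k => (Commute.pow_right hPT k)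
  have hlim : Tendsto (fun n : ℕ => c * μ ^ n * (C' * ‖Z‖)) atTop (𝓝 0) := by
    have := ((tendsto_pow_atTop_nhds_zero_of_lt_one hμ0 hμ1).const_mul c).mul_const (C' * ‖Z‖)
    simpa using this
  -- the unstable part
  have h1 : (1 - P) (reE Z) = 0 := by
    rw [← norm_le_zero_iff]
    refine ge_of_tendsto hlim (Eventually.of_forall fun n => ?_)
    have e1 : (1 - P) (reE Z) = (T' ^ n * (1 - P)) ((T ^ n) (reE Z)) := by
      have e2 : T' ^ n * (1 - P) * T ^ n = 1 - P := by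
        calc T' ^ n * (1 - P) * T ^ n = T' ^ n * ((1 - P) * T ^ n) := by rw [mul_assoc]
          _ = T' ^ n * (T ^ n * (1 - P)) := by
            congr 1
            rw [sub_mul, mul_sub, one_mul, mul_one, hPTn]
          _ = 1 - P := by rw [← mul_assoc, hcan, one_mul]
      calc (1 - P) (reE Z) = (T' ^ n * (1 - P) * T ^ n) (reE Z) := by rw [e2]
        _ = _ := rfl
    rw [e1, pow_reE hZ]
    calc ‖(T' ^ n * (1 - P)) (reE (z ^ n • Z))‖ ≤ ‖T' ^ n * (1 - P)‖ * ‖reE (z ^ n • Z)‖ :=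
          ContinuousLinearMap.le_opNorm _ _
      _ ≤ (c * μ ^ n) * (C' * ‖z ^ n • Z‖) := by
          gcongr
          · exact (hb n).2
          · exact hb' _
      _ = c * μ ^ n * (C' * ‖Z‖) := by rw [norm_smul, norm_pow, hz, one_pow, one_mul]
  -- the stable part
  have h2 : P (reE Z) = 0 := by
    rw [← norm_le_zero_iff]
    refine ge_of_tendsto hlim (Eventually.of_forall fun n => ?_)
    have e0 : (T ^ n) (reE ((z ^ n)⁻¹ • Z)) = reE Z := by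
      have hZ' : cT (T : E →ₗ[ℝ] E) ((z ^ n)⁻¹ • Z) = z • ((z ^ n)⁻¹ • Z) := by
        rw [map_smul, hZ, smul_comm]
      rw [pow_reE hZ', smul_smul, mul_inv_cancel₀ (pow_ne_zero n hz0), one_smul]
    have e1 : P (reE Z) = (T ^ n * P) (reE ((z ^ n)⁻¹ • Z)) := by
      rw [← hPTn, mul_apply_eq_comp, e0]
    rw [e1]
    calc ‖(T ^ n * P) (reE ((z ^ n)⁻¹ • Z))‖ ≤ ‖T ^ n * P‖ * ‖reE ((z ^ n)⁻¹ • Z)‖ :=
          ContinuousLinearMap.le_opNorm _ _
      _ ≤ (c * μ ^ n) * (C' * ‖(z ^ n)⁻¹ • Z‖) := by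
          gcongr
          · exact (hb n).1
          · exact hb' _
      _ = c * μ ^ n * (C' * ‖Z‖) := by rw [norm_smul, norm_inv, norm_pow, hz, one_pow, inv_one, one_mul]
  calc reE Z = P (reE Z) + (1 - P) (reE Z) := by
        simp
    _ = 0 := by rw [h1, h2, add_zero]

/-- Hyperbolic maps have no eigenvalues of modulus one. -/
theorem norm_ne_one_of_isHyp {T : E →L[ℝ] E} (hT : IsHyp T) {z : ℂ} (hz : Eig T z) : ‖z‖ ≠ 1 := by
  intro h1
  obtain ⟨Z, hZ0, hZ⟩ := Eig.iff.1 hz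
  apply hZ0
  have h2 := IsHyp.reE_eq_zero hT h1 hZ
  have h3 := IsHyp.reE_eq_zero hT h1 (Z := Complex.I • Z) (by rw [map_smul, hZ, smul_comm])
  funext j
  have h4 := reE_eq_zero h2 j
  have h5 := reE_eq_zero h3 j
  apply Complex.ext
  · exact h4
  · simpa using h5

end CrS
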