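import Pool.Agent.CrS.Pert
import Pool.Agent.CrS.Eig
import Pool.Agent.CrS.Conv

/-!
# Hyperbolicity of the perturbed derivatives along the periodic orbits
-/

open Set Filter Topology Manifold ContDiff Metric OmSt
open scoped NNReal

set_option linter.unusedSectionVars false

namespace CrS

universe u

variable {E : Type u} [NormedAddCommGroup E] [NormedSpace ℝ E]
  {M : Type*} [MetricSpace M] [ChartedSpace E M] {r : ℕ∞}

/-- The perturbed derivative along the orbit of `p`: the product of the linear maps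
`D f (1 + B)` at the points `p, f p, …, f^[n - 1] p`. -/
noncomputable def pertDeriv (f : M → M) (B : EndoField E M) :
    ∀ (n : ℕ) (p : M), TangentSpace 𝓘(ℝ, E) p →L[ℝ] TangentSpace 𝓘(ℝ, E) (f^[n] p)
  | 0, p => ContinuousLinearMap.id ℝ (TangentSpace 𝓘(ℝ, E) p)
  | n + 1, p => (pertDeriv f B n (f p)).comp
      ((mfderiv 𝓘(ℝ, E) 𝓘(ℝ, E) f p).comp
        (ContinuousLinearMap.id ℝ (TangentSpace 𝓘(ℝ, E) p) + B p))

/-- The same product, for maps of the model space. -/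
noncomputable def pD (f : M → M) (B : M → E →L[ℝ] E) : ℕ → M → E →L[ℝ] E
  | 0, _ => 1
  | n + 1, p => pD f B n (f p) * ((D f p : E →L[ℝ] E) * (1 + B p))

theorem pertDeriv_eq (f : M → M) (B : EndoField E M) (n : ℕ) (p : M) :
    (pertDeriv f B n p : E →L[ℝ] E) = pD f B n p := by
  induction n generalizing p with
  | zero => rfl
  | succ n ih =>
    have e1 : (pertDeriv f B (n + 1) p : E →L[ℝ] E) =
      @id (E →L[ℝ] E) (pertDeriv f B n (f p)) *
      ((D f p : E →L[ℝ] E) * (1 + @id (E →L[ℝ] E) (B p))) := rfl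
    rw [e1, id_eq, ih]
    rfl

/-- Only the values along the orbit matter. -/
theorem pD_congr {f : M → M} {B B' : M → E →L[ℝ] E} {n : ℕ} {p : M}
    (h : ∀ i < n, B (f^[i] p) = B' (f^[i] p)) : pD f B n p = pD f B' n p := by
  induction n generalizing p with
  | zero => rfl
  | succ n ih =>
    change pD f B n (f p) * ((D f p : E →L[ℝ] E) * (1 + B p)) =
      pD f B' n (f p) * ((D f p : E →L[ℝ] E) * (1 + B' p))
    have h0 : B p = B' p := h 0 (Nat.succ_pos n)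
    rw [ih fun i hi => ?_, h0]
    have := h (i + 1) (by omega)
    rwa [Function.iterate_succ_apply] at this

variable [IsManifold 𝓘(ℝ, E) ∞ M]

/-- **The perturbation lemma for `Ω`-stable maps**, uniformly near `f`. -/
theorem franks [FiniteDimensional ℝ E] [CompactSpace M] {N : Set (Dyn E M r)} (hN : Stab N)
    (hr : 1 ≤ r) {f : Dyn E M r} (hf : f ∈ N) (γ : RMetric E M) (hd : LipCharts E M) :
    ∃ (k : ℕ) (c : ℝ) (N' : Set (Dyn E M r)), 1 ≤ k ∧ (k : ℕ∞) ≤ r ∧ 0 < c ∧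
      IsOpen[crTopology E M r] N' ∧ f ∈ N' ∧ ∀ g ∈ N',
      ∀ (O : Finset M) (w : M → ℝ) (B : M → E →L[ℝ] E), Dat (E := E) γ k O w B c →
        (∀ q ∈ O, g q ∈ O) → ∀ p ∈ O, ∀ n > 0, g^[n] p = p → IsHyp (pD g B n p) := by
  classical
  obtain ⟨s, K, ρ₀, C₀, κ, hS⟩ := exists_setup (E := E) γ hd
  have h1 : ∀ q, ∃ b, b ∈ s ∧ closedBall q ρ₀ ⊆ K b := fun q => hS.cov.leb q
  choose bq hbq1 hbq2 using h1
  obtain ⟨k₀, hk₀, hmem⟩ := eventually_mem_of_mc (ι := Dyn E M r × ℝ) hN.isOpen hf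
  have hk : ((max k₀ 1 : ℕ) : ℕ∞) ≤ r := by
    rcases le_total k₀ 1 with h | h
    · rw [max_eq_right h]
      exact_mod_cast hr
    · rwa [max_eq_left h]
  set k := max k₀ 1 with hkdef
  by_contra hcon
  push Not at hcon
  let top := crTopology E M r
  -- the set of the bad pairs
  let bad : Dyn E M r × ℝ → Prop := fun x => ∃ (O : Finset M) (w : M → ℝ)
    (B : M → E →L[ℝ] E), Dat (E := E) γ k O w B x.2 ∧ (∀ q ∈ O, x.1 q ∈ O) ∧
        ∃ p ∈ O, ∃ n > 0, x.1^[n] p = p ∧ ¬ IsHyp (pD x.1 B n p)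
  have hfreq : ∃ᶠ x in 𝓝 f ×ˢ 𝓝[>] (0 : ℝ), x ∈ {x | bad x} := by
    intro hev
    obtain ⟨pa, ha, pb, hb, hab⟩ := Filter.eventually_prod_iff.1 hev
    obtain ⟨N', hN'1, hN'2, hN'3⟩ := mem_nhds_iff.1 ha
    obtain ⟨c, hc1, hc2⟩ := (hb.and self_mem_nhdsWithin).exists
    obtain ⟨g, hg, O, w, B, a1, a2, p, a3, n, a4, a5, a6⟩ :=
      hcon k c N' (le_max_right _ _) hk hc2 hN'2 hN'3
    exact hab (hN'1 hg) hc1 ⟨O, w, B, a1, a2, p, a3, n, a4, a5, a6⟩
  set l := (𝓝 f ×ˢ 𝓝[>] (0 : ℝ)) ⊓ 𝓟 {x | bad x} with hl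
  have hne : l.NeBot := Filter.frequently_mem_iff_neBot.1 hfreq
  have h2 : ∀ x : Dyn E M r × ℝ, ∃ (O : Finset M) (w : M → ℝ) (B : M → E →L[ℝ] E) (δ : ℝ),
      Dat (E := E) γ k O w B δ ∧ |δ| ≤ |x.2| ∧ (bad x → (∀ q ∈ O, x.1 q ∈ O) ∧
        ∃ p ∈ O, ∃ n > 0, x.1^[n] p = p ∧ ¬ IsHyp (pD x.1 B n p)) := by
    intro x
    by_cases hx : bad x
    · obtain ⟨O, w, B, a1, a2, a3⟩ := hx
      exact ⟨O, w, B, x.2, a1, le_rfl, fun _ => ⟨a2, a3⟩⟩
    · exact ⟨∅, fun _ => 0, fun _ => 0, 0, ⟨le_rfl, by simp, by simp, by simp⟩, by simp,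
        fun h => absurd h hx⟩
  choose O w B δ hD hδ hbad using h2
  have hl1 : Tendsto (fun x : Dyn E M r × ℝ => x.1) l (𝓝 f) :=
    tendsto_fst.mono_left inf_le_left
  have hl2 : Tendsto (fun x : Dyn E M r × ℝ => x.2) l (𝓝 0) :=
    (tendsto_snd.mono_left inf_le_left).mono_right nhdsWithin_le_nhds
  have hδl : Tendsto δ l (𝓝 0) := by
    rw [tendsto_zero_iff_abs_tendsto_zero]
    have h3 : Tendsto (fun x : Dyn E M r × ℝ => |x.2|) l (𝓝 0) := by
      have := hl2.abs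
      rwa [abs_zero] at this
    exact squeeze_zero (fun _ => abs_nonneg _) hδ h3
  obtain ⟨Ψ, hΨ1, hΨ2⟩ := hS.exists_pert (le_max_right k₀ 1) hbq2 hD hδl s le_rfl
  have hG : ∀ x, MC E l k₀ (fun y => (pert y.1 (Ψ y) : M → M)) f x := by
    intro x
    exact (MC.comp (G := fun y : Dyn E M r × ℝ => (y.1 : M → M)) (G₀ := f)
      (H := fun y => (Ψ y : M → M)) (H₀ := id) (mc_of_tendsto hl1 hk (id x)) (hΨ1 x)).mono
      (le_max_left k₀ 1)
  have hbadl : ∀ᶠ x in l, bad x := Filter.mem_inf_of_right (mem_principal_self _)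
  obtain ⟨y, ⟨hi1, hi2⟩, hi3⟩ := (((hmem l (fun y => pert y.1 (Ψ y)) hG).and hΨ2).and
    hbadl).exists
  obtain ⟨hO, p, hp, n, hn, hfp, hhyp⟩ := hbad y hi3
  set g := y.1 with hg
  -- the iterates and their derivatives
  have key : ∀ j : ℕ, ∀ q ∈ O y, (pert g (Ψ y))^[j] q = g^[j] q ∧
      (D (pert g (Ψ y))^[j] q : E →L[ℝ] E) = pD g (B y) j q := by
    intro j
    induction j with
    | zero => exact fun q _ => ⟨rfl, D_id q⟩
    | succ j ih =>
      intro q hq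
      obtain ⟨b1, b2, -⟩ := hi2 q hq
      obtain ⟨c1, c2⟩ := ih (g q) (hO q hq)
      have e1 : pert g (Ψ y) q = g q := by rw [pert_apply, b1]
      refine ⟨?_, ?_⟩
      · rw [Function.iterate_succ_apply, Function.iterate_succ_apply, e1, c1]
      · have e2 : ((pert g (Ψ y))^[j + 1] : M → M) = (pert g (Ψ y))^[j] ∘ (pert g (Ψ y)) :=
          Function.iterate_succ _ _
        rw [e2, D_comp (mdiff_iterate (Dyn.mdiff _ hr) j _) (Dyn.mdiff _ hr q), e1, c2,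
          D_pert g hr, b1, b2 (hbq1 q)]
        rfl
  obtain ⟨c1, c2⟩ := key n p hp
  apply hhyp
  rw [← c2]
  exact hN.isHyp hr hi1 hn (c1.trans hfp)

end CrS
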