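import Mathlib

/-!
# Local uniform convergence of sequences of maps with their derivatives
-/

open Set Filter Topology

set_option linter.unusedSectionVars false

namespace CrS

universe u

/-- The maps `v i` converge to `v₀` near `z₀`, together with their derivatives of order at
most `k` (convergence along `i → ∞`, `z → z₀`). -/
def LC {ι : Type*} (l : Filter ι) {E : Type u} [NormedAddCommGroup E] [NormedSpace ℝ E] :
    ℕ → ∀ (F : Type u) [NormedAddCommGroup F] [NormedSpace ℝ F],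
      (ι → E → F) → (E → F) → E → Prop
  | 0, _, _, _, v, v₀, z₀ => Tendsto (fun p : ι × E => v p.1 p.2) (l ×ˢ 𝓝 z₀) (𝓝 (v₀ z₀))
  | k + 1, F, _, _, v, v₀, z₀ =>
    Tendsto (fun p : ι × E => v p.1 p.2) (l ×ˢ 𝓝 z₀) (𝓝 (v₀ z₀)) ∧
      (∀ᶠ p : ι × E in l ×ˢ 𝓝 z₀, DifferentiableAt ℝ (v p.1) p.2) ∧
      (∀ᶠ z in 𝓝 z₀, DifferentiableAt ℝ v₀ z) ∧
      LC l k (E →L[ℝ] F) (fun i => fderiv ℝ (v i)) (fderiv ℝ v₀) z₀

variable {E F G H : Type u} [NormedAddCommGroup E] [NormedSpace ℝ E]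
  [NormedAddCommGroup F] [NormedSpace ℝ F] [NormedAddCommGroup G] [NormedSpace ℝ G]
  [NormedAddCommGroup H] [NormedSpace ℝ H] {z₀ : E} {k : ℕ} {ι : Type*} {l : Filter ι}

/-- A property which holds eventually along `l ×ˢ 𝓝 z₀` holds near the points. -/
theorem eventually_nhds_snd {X : Type*} [TopologicalSpace X] {x₀ : X}
    {P : ι × X → Prop} (h : ∀ᶠ p in l ×ˢ 𝓝 x₀, P p) :
    ∀ᶠ p in l ×ˢ 𝓝 x₀, ∀ᶠ x in 𝓝 p.2, P (p.1, x) := by
  obtain ⟨pa, ha, pb, hb, hab⟩ := Filter.eventually_prod_iff.1 h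
  have h1 : ∀ᶠ x in 𝓝 x₀, ∀ᶠ y in 𝓝 x, pb y := eventually_eventually_nhds.2 hb
  refine Filter.eventually_prod_iff.2 ⟨pa, ha, fun x => ∀ᶠ y in 𝓝 x, pb y, h1, ?_⟩
  intro i hi x hx
  filter_upwards [hx] with y hy
  exact hab hi hy

theorem LC.tendsto {v : ι → E → F} {v₀ : E → F} (h : LC l k F v v₀ z₀) :
    Tendsto (fun p : ι × E => v p.1 p.2) (l ×ˢ 𝓝 z₀) (𝓝 (v₀ z₀)) := by
  cases k with
  | zero => exact h
  | succ k => exact h.1

theorem LC.congr {v w : ι → E → F} {v₀ w₀ : E → F} (h : LC l k F v v₀ z₀)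
    (hv : ∀ᶠ p : ι × E in l ×ˢ 𝓝 z₀, v p.1 p.2 = w p.1 p.2)
    (hv₀ : ∀ᶠ z in 𝓝 z₀, v₀ z = w₀ z) : LC l k F w w₀ z₀ := by
  induction k generalizing F with
  | zero =>
    change Tendsto (fun p : ι × E => w p.1 p.2) (l ×ˢ 𝓝 z₀) (𝓝 (w₀ z₀))
    rw [← hv₀.self_of_nhds]
    exact Tendsto.congr' hv h
  | succ k ih =>
    obtain ⟨h1, h2, h3, h4⟩ := h
    have hv' := eventually_nhds_snd hv
    have hv₀' : ∀ᶠ z in 𝓝 z₀, ∀ᶠ y in 𝓝 z, v₀ y = w₀ y := eventually_eventually_nhds.2 hv₀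
    refine ⟨?_, ?_, ?_, ih h4 ?_ ?_⟩
    · rw [← hv₀.self_of_nhds]
      exact Tendsto.congr' hv h1
    · filter_upwards [h2, hv'] with p hp hp'
      exact hp.congr_of_eventuallyEq (hp'.mono fun z hz => hz.symm)
    · filter_upwards [h3, hv₀'] with z hz hz'
      exact hz.congr_of_eventuallyEq (hz'.mono fun z hz => hz.symm)
    · filter_upwards [hv'] with p hp
      exact Filter.EventuallyEq.fderiv_eq hp
    · filter_upwards [hv₀'] with z hz
      exact Filter.EventuallyEq.fderiv_eq hz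

theorem LC.mono {v : ι → E → F} {v₀ : E → F} (h : LC l (k + 1) F v v₀ z₀) : LC l k F v v₀ z₀ := by
  induction k generalizing F with
  | zero => exact h.1
  | succ k ih => exact ⟨h.1, h.2.1, h.2.2.1, ih h.2.2.2⟩

theorem LC.of_le {v : ι → E → F} {v₀ : E → F} {j : ℕ} (h : LC l k F v v₀ z₀) (hj : j ≤ k) :
    LC l j F v v₀ z₀ := by
  induction k with
  | zero =>
    obtain rfl : j = 0 := by omega
    exact h
  | succ k ih =>
    rcases Nat.lt_or_ge k j with h1 | h1
    · obtain rfl : j = k + 1 := by omega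
      exact h
    · exact ih h.mono h1

/-- Composition with a continuous linear map. -/
theorem LC.clm {v : ι → E → F} {v₀ : E → F} (L : F →L[ℝ] G) (h : LC l k F v v₀ z₀) :
    LC l k G (fun i z => L (v i z)) (fun z => L (v₀ z)) z₀ := by
  induction k generalizing F G with
  | zero => exact (L.continuous.tendsto _).comp h
  | succ k ih =>
    obtain ⟨h1, h2, h3, h4⟩ := h
    refine ⟨(L.continuous.tendsto _).comp h1, ?_, ?_, ?_⟩
    · filter_upwards [h2] with p hp
      exact L.differentiableAt.comp p.2 hp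
    · filter_upwards [h3] with z hz
      exact L.differentiableAt.comp z hz
    · refine (ih (ContinuousLinearMap.compL ℝ E F G L) h4).congr ?_ ?_
      · filter_upwards [h2] with p hp
        exact ((L.hasFDerivAt.comp p.2 hp.hasFDerivAt).fderiv).symm
      · filter_upwards [h3] with z hz
        exact ((L.hasFDerivAt.comp z hz.hasFDerivAt).fderiv).symm

theorem LC.prodMk {v : ι → E → F} {v₀ : E → F} {w : ι → E → G} {w₀ : E → G}
    (hv : LC l k F v v₀ z₀) (hw : LC l k G w w₀ z₀) :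
    LC l k (F × G) (fun i z => (v i z, w i z)) (fun z => (v₀ z, w₀ z)) z₀ := by
  induction k generalizing F G with
  | zero => exact Tendsto.prodMk_nhds hv hw
  | succ k ih =>
    obtain ⟨h1, h2, h3, h4⟩ := hv
    obtain ⟨g1, g2, g3, g4⟩ := hw
    refine ⟨Tendsto.prodMk_nhds h1 g1, ?_, ?_, ?_⟩
    · filter_upwards [h2, g2] with p hp hp'
      exact hp.prodMk hp'
    · filter_upwards [h3, g3] with z hz hz'
      exact hz.prodMk hz'
    · let L : ((E →L[ℝ] F) × (E →L[ℝ] G)) →L[ℝ] (E →L[ℝ] F × G) :=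
        (ContinuousLinearMap.prodₗᵢ ℝ : (E →L[ℝ] F) × (E →L[ℝ] G) ≃ₗᵢ[ℝ] (E →L[ℝ] F × G))
      refine ((ih h4 g4).clm L).congr ?_ ?_
      · filter_upwards [h2, g2] with p hp hp'
        exact (hp.fderiv_prodMk hp').symm
      · filter_upwards [h3, g3] with z hz hz'
        exact (hz.fderiv_prodMk hz').symm

theorem LC.add {v w : ι → E → F} {v₀ w₀ : E → F} (hv : LC l k F v v₀ z₀) (hw : LC l k F w w₀ z₀) :
    LC l k F (fun i z => v i z + w i z) (fun z => v₀ z + w₀ z) z₀ :=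
  (hv.prodMk hw).clm (ContinuousLinearMap.fst ℝ F F + ContinuousLinearMap.snd ℝ F F)

/-- Bilinear expressions. -/
theorem LC.bilin {v : ι → E → F} {v₀ : E → F} {w : ι → E → G} {w₀ : E → G}
    (B : F →L[ℝ] G →L[ℝ] H) (hv : LC l k F v v₀ z₀) (hw : LC l k G w w₀ z₀) :
    LC l k H (fun i z => B (v i z) (w i z)) (fun z => B (v₀ z) (w₀ z)) z₀ := by
  induction k generalizing F G H with
  | zero =>
    have hc : Continuous fun p : F × G => B p.1 p.2 := by fun_prop
    exact (hc.tendsto (v₀ z₀, w₀ z₀)).comp (Tendsto.prodMk_nhds hv hw)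
  | succ k ih =>
    have hv' := hv.mono
    have hw' := hw.mono
    obtain ⟨h1, h2, h3, h4⟩ := hv
    obtain ⟨g1, g2, g3, g4⟩ := hw
    have hc : Continuous fun p : F × G => B p.1 p.2 := by fun_prop
    refine ⟨(hc.tendsto (v₀ z₀, w₀ z₀)).comp (Tendsto.prodMk_nhds h1 g1), ?_, ?_, ?_⟩
    · filter_upwards [h2, g2] with p hp hp'
      exact (B.hasFDerivAt_of_bilinear hp.hasFDerivAt hp'.hasFDerivAt).differentiableAt
    · filter_upwards [h3, g3] with z hz hz'
      exact (B.hasFDerivAt_of_bilinear hz.hasFDerivAt hz'.hasFDerivAt).differentiableAt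
    · refine ((ih (B.precompR E) hv' g4).add (ih (B.precompL E) h4 hw')).congr ?_ ?_
      · filter_upwards [h2, g2] with p hp hp'
        exact ((B.hasFDerivAt_of_bilinear hp.hasFDerivAt hp'.hasFDerivAt).fderiv).symm
      · filter_upwards [h3, g3] with z hz hz'
        exact ((B.hasFDerivAt_of_bilinear hz.hasFDerivAt hz'.hasFDerivAt).fderiv).symm

/-- Composition of convergent sequences. -/
theorem LC.comp {f : ι → F → G} {f₀ : F → G} {h : ι → E → F} {h₀ : E → F}
    (hf : LC l k G f f₀ (h₀ z₀)) (hh : LC l k F h h₀ z₀) :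
    LC l k G (fun i z => f i (h i z)) (fun z => f₀ (h₀ z)) z₀ := by
  induction k generalizing G with
  | zero =>
    have h1 : Tendsto (fun p : ι × E => (p.1, h p.1 p.2)) (l ×ˢ 𝓝 z₀)
        (l ×ˢ 𝓝 (h₀ z₀)) := tendsto_fst.prodMk hh
    exact Tendsto.comp hf h1
  | succ k ih =>
    have hh' := hh.mono
    obtain ⟨h1, h2, h3, h4⟩ := hf
    obtain ⟨g1, g2, g3, g4⟩ := hh
    have ht : Tendsto (fun p : ι × E => (p.1, h p.1 p.2)) (l ×ˢ 𝓝 z₀)
        (l ×ˢ 𝓝 (h₀ z₀)) := tendsto_fst.prodMk g1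
    have hc : Tendsto h₀ (𝓝 z₀) (𝓝 (h₀ z₀)) := g3.self_of_nhds.continuousAt
    refine ⟨Tendsto.comp h1 ht, ?_, ?_, ?_⟩
    · filter_upwards [ht.eventually h2, g2] with p hp hp'
      exact DifferentiableAt.comp p.2 hp hp'
    · filter_upwards [hc.eventually h3, g3] with z hz hz'
      exact DifferentiableAt.comp z hz hz'
    · refine ((ih h4 hh').bilin (ContinuousLinearMap.compL ℝ E F G) g4).congr ?_ ?_
      · filter_upwards [ht.eventually h2, g2] with p hp hp'
        exact (fderiv_comp p.2 hp hp').symm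
      · filter_upwards [hc.eventually h3, g3] with z hz hz'
        exact (fderiv_comp z hz hz').symm

/-- Constant sequences. -/
theorem LC.const {v₀ : E → F} (h : ContDiffAt ℝ k v₀ z₀) : LC l k F (fun _ => v₀) v₀ z₀ := by
  induction k generalizing F with
  | zero => exact h.continuousAt.tendsto.comp tendsto_snd
  | succ k ih =>
    have h1 : ∀ᶠ z in 𝓝 z₀, ContDiffAt ℝ (k + 1 : ℕ) v₀ z := h.eventually (by simp)
    have h2 : ∀ᶠ z in 𝓝 z₀, DifferentiableAt ℝ v₀ z := by
      filter_upwards [h1] with z hz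
      exact hz.differentiableAt (by simp)
    refine ⟨h.continuousAt.tendsto.comp tendsto_snd, tendsto_snd.eventually h2, h2, ih ?_⟩
    exact h.fderiv_right (by norm_cast)

/-- Convergence of the iterated derivatives. -/
theorem LC.tendsto_iterated {v : ι → E → F} {v₀ : E → F} {j : ℕ} (h : LC l k F v v₀ z₀)
    (hj : j ≤ k) : Tendsto (fun p : ι × E => iteratedFDeriv ℝ j (v p.1) p.2) (l ×ˢ 𝓝 z₀)
      (𝓝 (iteratedFDeriv ℝ j v₀ z₀)) := by
  induction j generalizing F k with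
  | zero =>
    have h1 := ((continuousMultilinearCurryFin0 ℝ E F).symm.continuous.tendsto (v₀ z₀)).comp
      h.tendsto
    exact h1
  | succ j ih =>
    obtain ⟨k, rfl⟩ : ∃ k', k = k' + 1 := ⟨k - 1, by omega⟩
    have h1 := ih h.2.2.2 (by omega)
    have h2 := ((continuousMultilinearCurryRightEquiv' ℝ j E F).symm.continuous.tendsto
      (iteratedFDeriv ℝ j (fderiv ℝ v₀) z₀)).comp h1
    simp only [iteratedFDeriv_succ_eq_comp_right]
    exact h2

/-- Convergence to zero from bounds of the iterated derivatives. -/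
theorem LC.of_bound {v : ι → E → F} (hv : ∀ᶠ i in l, ContDiff ℝ k (v i)) {ε : ι → ℝ}
    (hε : Tendsto ε l (𝓝 0))
    (hb : ∀ᶠ i in l, ∀ j ≤ k, ∀ z, ‖iteratedFDeriv ℝ j (v i) z‖ ≤ ε i) :
    LC l k F v (fun _ => 0) z₀ := by
  induction k generalizing F with
  | zero =>
    change Tendsto _ _ (𝓝 (0 : F))
    refine squeeze_zero_norm' ?_ (hε.comp (tendsto_fst (g := 𝓝 z₀)))
    have h1 : ∀ᶠ p : ι × E in l ×ˢ 𝓝 z₀, ∀ j ≤ 0, ∀ z, ‖iteratedFDeriv ℝ j (v p.1) z‖ ≤ ε p.1 :=
      tendsto_fst.eventually hb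
    filter_upwards [h1] with p hp
    have := hp 0 le_rfl p.2
    rwa [norm_iteratedFDeriv_zero] at this
  | succ k ih =>
    refine ⟨?_, ?_, Eventually.of_forall fun z => differentiableAt_const _, ?_⟩
    · change Tendsto _ _ (𝓝 (0 : F))
      refine squeeze_zero_norm' ?_ (hε.comp (tendsto_fst (g := 𝓝 z₀)))
      have h1 : ∀ᶠ p : ι × E in l ×ˢ 𝓝 z₀, ∀ j ≤ k + 1, ∀ z,
          ‖iteratedFDeriv ℝ j (v p.1) z‖ ≤ ε p.1 := tendsto_fst.eventually hb
      filter_upwards [h1] with p hp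
      have := hp 0 (Nat.zero_le _) p.2
      rwa [norm_iteratedFDeriv_zero] at this
    · filter_upwards [tendsto_fst.eventually hv] with p hp
      exact hp.differentiable (by simp) p.2
    · have h2 := ih (F := E →L[ℝ] F) (v := fun i => fderiv ℝ (v i)) ?_ ?_
      · refine h2.congr (Eventually.of_forall fun p => rfl) (Eventually.of_forall fun z => ?_)
        exact (fderiv_const_apply (0 : F)).symm
      · filter_upwards [hv] with i hi
        exact hi.fderiv_right (by norm_cast)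
      · filter_upwards [hb] with i hi j hj z
        rw [norm_iteratedFDeriv_fderiv]
        exact hi (j + 1) (by omega) z

end CrS
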