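import Pool.Agent.CrS.Top
import Pool.Agent.OmSt.Fam

/-!
# Convergence of glued perturbations of the identity
-/

open Set Filter Topology Manifold ContDiff Metric OmSt

set_option linter.unusedSectionVars false

namespace CrS

universe u

variable {E : Type u} [NormedAddCommGroup E] [NormedSpace ℝ E]
  {M : Type*} [TopologicalSpace M] [ChartedSpace E M] {r : ℕ∞} {k : ℕ} {ι : Type*} {l : Filter ι}
  [IsManifold 𝓘(ℝ, E) ∞ M]

theorem MC.congr' {G G' : ι → M → M} {G₀ : M → M} {x : M} (h : MC E l k G G₀ x)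
    (he : ∀ᶠ p : ι × M in l ×ˢ 𝓝 x, G p.1 p.2 = G' p.1 p.2) : MC E l k G' G₀ x := by
  obtain ⟨φ, ψ, h1, h2, h3, h4, h5⟩ := h.lc
  refine ⟨h.tend.congr' ?_, h.cont, φ, ψ, h1, h2, h3, h4, h5.congr ?_ (Eventually.of_forall
    fun z => rfl)⟩
  · exact he
  · have ht : Tendsto φ.symm (𝓝 (φ x)) (𝓝 x) := by
      have := (φ.continuousAt_symm (φ.map_source h3)).tendsto
      rwa [φ.left_inv h3] at this
    have ht2 : Tendsto (fun p : ι × E => (p.1, φ.symm p.2)) (l ×ˢ 𝓝 (φ x))
        (l ×ˢ 𝓝 x) := tendsto_fst.prodMk (ht.comp tendsto_snd)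
    filter_upwards [ht2.eventually he] with p hp
    have hp : G p.1 (φ.symm p.2) = G' p.1 (φ.symm p.2) := hp
    simp only [Function.comp_apply]
    rw [hp]

theorem MC.id (x : M) : MC E l k (fun _ => (_root_.id : M → M)) _root_.id x :=
  MC.const (r := (k : ℕ∞)) (Diffeomorph.refl 𝓘(ℝ, E) M k) le_rfl x

theorem mc_glue [T2Space M] {e : OpenPartialHomeomorph M E}
    (he : e ∈ IsManifold.maximalAtlas 𝓘(ℝ, E) ∞ M) {K : Set E} (hK : IsCompact K)
    (hKt : K ⊆ e.target) {u : ι → E → E} {ε : ι → ℝ} (hε : Tendsto ε l (𝓝 0))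
    (hu : ∀ i, ContDiff ℝ ∞ (u i)) (hb : ∀ i, ∀ j ≤ k, ∀ z, ‖iteratedFDeriv ℝ j (u i) z‖ ≤ ε i)
    (hs : ∀ i, ∀ z ∉ K, u i z = 0) (hmap : ∀ i, ∀ z ∈ e.target, z + u i z ∈ e.target) (x : M) :
    MC E l k (fun i => glue e (fun z => z + u i z)) _root_.id x := by
  by_cases hx : x ∈ e.source
  · have hT : LC l k E (fun i z => z + u i z) (fun z => z + 0) (e x) := by
      refine LC.add (LC.const contDiffAt_id) (LC.of_bound (Eventually.of_forall fun i => ?_) hε
        (Eventually.of_forall hb))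
      exact (hu i).of_le (by exact_mod_cast le_top)
    have hTt : Tendsto (fun p : ι × E => p.2 + u p.1 p.2) (l ×ˢ 𝓝 (e x)) (𝓝 (e x)) := by
      have := hT.tendsto
      rwa [add_zero] at this
    have ht2 : Tendsto (fun p : ι × M => (p.1, e p.2)) (l ×ˢ 𝓝 x) (l ×ˢ 𝓝 (e x)) :=
      tendsto_fst.prodMk ((e.continuousAt hx).tendsto.comp tendsto_snd)
    have ht : Tendsto e.symm (𝓝 (e x)) (𝓝 x) := by
      have := (e.continuousAt_symm (e.map_source hx)).tendsto
      rwa [e.left_inv hx] at this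
    refine ⟨?_, continuousAt_id, e, e, he, he, hx, hx, ?_⟩
    · have h1 := ht.comp (hTt.comp ht2)
      refine h1.congr' ?_
      filter_upwards [tendsto_snd.eventually (e.open_source.mem_nhds hx)] with p hp
      have hp : p.2 ∈ e.source := hp
      rw [glue_of_mem e _ hp]
      rfl
    · refine hT.congr ?_ ?_
      · filter_upwards [tendsto_snd.eventually (e.open_target.mem_nhds (e.map_source hx))] with p hp
        have hp : p.2 ∈ e.target := hp
        simp only [Function.comp_apply]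
        rw [glue_of_mem e _ (e.map_target hp), e.right_inv hp, e.right_inv (hmap _ _ hp)]
      · filter_upwards [e.open_target.mem_nhds (e.map_source hx)] with z hz
        simp only [Function.comp_apply, _root_.id]
        rw [e.right_inv hz, add_zero]
  · have h0 : x ∉ e.symm '' K := by
      rintro ⟨y, hy, rfl⟩
      exact hx (e.map_target (hKt hy))
    refine (MC.id x).congr' ?_
    filter_upwards [tendsto_snd.eventually
      ((isClosed_image_symm e hK hKt).isOpen_compl.mem_nhds h0)] with p hp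
    have hp : p.2 ∉ e.symm '' K := hp
    rw [glue_eq_self e (fun y hy => by rw [hs _ y hy, add_zero]) hp]
    rfl

end CrS
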