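import Pool.Agent.CrS.Franks

/-!
# The star inequality for `Ω`-stable maps
-/

open Set Filter Topology Manifold ContDiff Metric OmSt
open scoped NNReal

set_option linter.unusedSectionVars false

namespace CrS

universe u

variable {E : Type u} [NormedAddCommGroup E] [NormedSpace ℝ E]
  {M : Type*} [MetricSpace M] [ChartedSpace E M] {r : ℕ∞}

/-- On the orbit of `p`, the function `w` takes values in `[0, 1]`, and `w q` is at most the
distance from `q` to the other points of the orbit. -/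
def IsSep (f : M → M) (p : M) (w : M → ℝ) : Prop :=
  ∀ i : ℕ, 0 ≤ w (f^[i] p) ∧ w (f^[i] p) ≤ 1 ∧
    ∀ j : ℕ, f^[j] p ≠ f^[i] p → w (f^[i] p) ≤ dist (f^[i] p) (f^[j] p)

theorem exists_gap (O : Finset M) : ∃ w' : M → ℝ, ∀ q ∈ O, (0 < w' q ∧ w' q ≤ 1) ∧
    (∀ q' ∈ O, q ≠ q' → w' q ≤ dist q q') ∧
    ∀ a : ℝ, a ≤ 1 → (∀ q' ∈ O, q ≠ q' → a ≤ dist q q') → a ≤ w' q := by
  classical
  refine ⟨fun q => (insert 1 ((O.erase q).image (dist q))).min' ⟨1, Finset.mem_insert_self _ _⟩,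
    fun q hq => ⟨⟨?_, ?_⟩, fun q' hq' hne => ?_, fun a ha h => ?_⟩⟩
  · rw [Finset.lt_min'_iff]
    intro y hy
    rcases Finset.mem_insert.1 hy with rfl | hy
    · exact one_pos
    · obtain ⟨q', hq', rfl⟩ := Finset.mem_image.1 hy
      exact dist_pos.2 (Finset.ne_of_mem_erase hq').symm
  · exact Finset.min'_le _ _ (Finset.mem_insert_self _ _)
  · exact Finset.min'_le _ _ (Finset.mem_insert_of_mem
      (Finset.mem_image_of_mem _ (Finset.mem_erase.2 ⟨hne.symm, hq'⟩)))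
  · rw [Finset.le_min'_iff]
    intro y hy
    rcases Finset.mem_insert.1 hy with rfl | hy
    · exact ha
    · obtain ⟨q', hq', rfl⟩ := Finset.mem_image.1 hy
      exact h q' (Finset.mem_of_mem_erase hq') (Finset.ne_of_mem_erase hq').symm

theorem rnorm_smul [IsManifold 𝓘(ℝ, E) ∞ M] (γ : RMetric E M) (x : M) (a : ℝ)
    (v : TangentSpace 𝓘(ℝ, E) x) : rnorm γ x (a • v) = |a| * rnorm γ x v := by
  unfold rnorm
  have h1 : γ.inner x (a • v) (a • v) = a ^ 2 * γ.inner x v v := by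
    simp only [map_smul, smul_apply, smul_eq_mul]
    ring
  rw [h1, Real.sqrt_mul (sq_nonneg a), Real.sqrt_sq_eq_abs]

theorem inner_self_nonneg' [IsManifold 𝓘(ℝ, E) ∞ M] (γ : RMetric E M) (x : M)
    (v : TangentSpace 𝓘(ℝ, E) x) : 0 ≤ γ.inner x v v := by
  by_cases hv : v = 0
  · rw [hv, map_zero]
  · exact (γ.pos x v hv).le

theorem rnorm_add_le [IsManifold 𝓘(ℝ, E) ∞ M] (γ : RMetric E M) (x : M)
    (u v : TangentSpace 𝓘(ℝ, E) x) : rnorm γ x (u + v) ≤ 2 * (rnorm γ x u + rnorm γ x v) := by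
  have h1 : γ.inner x (u + v) (u + v) + γ.inner x (u - v) (u - v) =
      2 * γ.inner x u u + 2 * γ.inner x v v := by
    simp only [map_add, map_sub, add_apply, sub_apply]
    ring
  have h2 := inner_self_nonneg' γ x (u - v)
  have h3 := inner_self_nonneg' γ x u
  have h4 := inner_self_nonneg' γ x v
  have h5 : rnorm γ x u ^ 2 = γ.inner x u u := Real.sq_sqrt h3
  have h6 : rnorm γ x v ^ 2 = γ.inner x v v := Real.sq_sqrt h4
  have h7 : 0 ≤ rnorm γ x u := Real.sqrt_nonneg _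
  have h8 : 0 ≤ rnorm γ x v := Real.sqrt_nonneg _
  refine Real.sqrt_le_iff.2 ⟨by positivity, ?_⟩
  nlinarith [mul_nonneg h7 h8]

variable [IsManifold 𝓘(ℝ, E) ∞ M]

theorem pD_smul {f : M → M} (B : M → E →L[ℝ] E) (σ : M → ℝ) (n : ℕ) (p : M) :
    pD f (fun q => (σ q - 1) • (1 : E →L[ℝ] E) + σ q • B q) n p =
      (∏ i ∈ Finset.range n, σ (f^[i] p)) • pD f B n p := by
  induction n generalizing p with
  | zero =>
    simp only [Finset.range_zero, Finset.prod_empty, one_smul]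
    rfl
  | succ n ih =>
    change pD f _ n (f p) * ((D f p : E →L[ℝ] E) *
      (1 + ((σ p - 1) • (1 : E →L[ℝ] E) + σ p • B p))) =
      _ • (pD f B n (f p) * ((D f p : E →L[ℝ] E) * (1 + B p)))
    have e1 : (1 : E →L[ℝ] E) + ((σ p - 1) • (1 : E →L[ℝ] E) + σ p • B p) =
        σ p • (1 + B p) := by
      rw [sub_smul, one_smul, smul_add]
      abel
    rw [e1, ih, Finset.prod_range_succ']
    simp only [mul_smul_comm, smul_mul_assoc, smul_smul, Function.iterate_succ_apply,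
      Function.iterate_zero, id_eq]
    rw [mul_comm]

/-- **The star inequality**, uniformly near `f`. -/
theorem main [FiniteDimensional ℝ E] [CompactSpace M] {N : Set (Dyn E M r)} (hN : Stab N)
    (hr : 1 ≤ r) {f : Dyn E M r} (hf : f ∈ N) (γ : RMetric E M) (hd : LipCharts E M) :
    ∃ (k : ℕ) (c : ℝ) (N' : Set (Dyn E M r)), 1 ≤ k ∧ (k : ℕ∞) ≤ r ∧ 0 < c ∧
      IsOpen[crTopology E M r] N' ∧ f ∈ N' ∧ ∀ g ∈ N',
      ∀ p ∈ Function.periodicPts g, ∀ w : M → ℝ, IsSep g p w →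
      ∀ B : EndoField E M, (∀ (i : ℕ) (v : TangentSpace 𝓘(ℝ, E) (g^[i] p)),
          rnorm γ (g^[i] p) (B (g^[i] p) v) ≤
            c * w (g^[i] p) ^ (k - 1) * rnorm γ (g^[i] p) v) →
      ∀ z : ℂ, Eig (E := E) (pertDeriv g B (Function.minimalPeriod g p) p) z →
        c * ∑ i ∈ Finset.range (Function.minimalPeriod g p), w (g^[i] p) ^ (k - 1) ≤
          |Real.log ‖z‖| := by
  classical
  obtain ⟨k, c, N', hk1, hkr, hc, hN', hfN', hfr⟩ := franks hN hr hf γ hd
  -- hyperbolicity, with the constant `c`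
  have key : ∀ g ∈ N', ∀ p ∈ Function.periodicPts g, ∀ w : M → ℝ, IsSep g p w →
      ∀ B : EndoField E M, (∀ (i : ℕ) (v : TangentSpace 𝓘(ℝ, E) (g^[i] p)),
            rnorm γ (g^[i] p) (B (g^[i] p) v) ≤
              c * w (g^[i] p) ^ (k - 1) * rnorm γ (g^[i] p) v) →
          IsHyp (E := E) (pertDeriv g B (Function.minimalPeriod g p) p) := by
    intro g hg p hp w hw B hB
    set n := Function.minimalPeriod g p with hn
    have hn0 : 0 < n := Function.minimalPeriod_pos_of_mem_periodicPts hp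
    have hnp : g^[n] p = p := Function.isPeriodicPt_minimalPeriod g p
    set O : Finset M := (Finset.range n).image (fun i => g^[i] p) with hO
    have hO1 : ∀ q ∈ O, ∃ i < n, g^[i] p = q := by
      intro q hq
      obtain ⟨i, hi, rfl⟩ := Finset.mem_image.1 hq
      exact ⟨i, Finset.mem_range.1 hi, rfl⟩
    have hO2 : ∀ i < n, g^[i] p ∈ O := fun i hi =>
      Finset.mem_image_of_mem _ (Finset.mem_range.2 hi)
    obtain ⟨w', hw'⟩ := exists_gap O
    have hDat : Dat (E := E) γ k O w' B c := by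
      refine ⟨hc.le, fun q hq => (hw' q hq).1, fun q hq q' hq' hne => (hw' q hq).2.1 q' hq' hne,
        fun q hq v => ?_⟩
      obtain ⟨i, hi, hiq⟩ := hO1 q hq
      subst hiq
      have h1 : w (g^[i] p) ≤ w' (g^[i] p) := by
        refine (hw' _ hq).2.2 _ (hw i).2.1 fun q' hq' hne => ?_
        obtain ⟨j, hj, rfl⟩ := hO1 q' hq'
        exact (hw i).2.2 j hne.symm
      have h2 := (hw i).1
      have h3 : 0 ≤ rnorm γ (g^[i] p) v := Real.sqrt_nonneg _
      refine (hB i v).trans ?_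
      gcongr
    have hOf : ∀ q ∈ O, g q ∈ O := by
      intro q hq
      obtain ⟨i, hi, rfl⟩ := hO1 q hq
      rw [← Function.iterate_succ_apply' g]
      rcases Nat.lt_or_ge (i + 1) n with h | h
      · exact hO2 _ h
      · have : i + 1 = n := by omega
        rw [Nat.succ_eq_add_one, this, hnp]
        exact hO2 0 hn0
    have h1 := hfr g hg O w' B hDat hOf p (hO2 0 hn0) n hn0 hnp
    rw [← pertDeriv_eq] at h1
    exact h1
  set c' := min c 1 / 8 with hc'def
  have hc' : 0 < c' := by positivity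
  have hc'c : 8 * c' ≤ c := by
    have := min_le_left c 1
    linarith
  have hc'1 : 8 * c' ≤ 1 := by
    have := min_le_right c 1
    linarith
  refine ⟨k, c', N', hk1, hkr, hc', hN', hfN', fun g hg p hp w hw B hB z hz => ?_⟩
  set n := Function.minimalPeriod g p with hn
  have hn0 : 0 < n := Function.minimalPeriod_pos_of_mem_periodicPts hp
  by_contra hcon
  push Not at hcon
  have hB' : ∀ (i : ℕ) (v : TangentSpace 𝓘(ℝ, E) (g^[i] p)), rnorm γ (g^[i] p) (B (g^[i] p) v) ≤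
      c * w (g^[i] p) ^ (k - 1) * rnorm γ (g^[i] p) v := by
    intro i v
    have h2 := (hw i).1
    have h3 : 0 ≤ rnorm γ (g^[i] p) v := Real.sqrt_nonneg _
    refine (hB i v).trans ?_
    gcongr
    linarith
  obtain ⟨T', -, -, -, -, hT', -⟩ := key g hg p hp w hw B hB'
  have hz0 : z ≠ 0 := Eig.ne_zero hT' hz
  have hznorm : 0 < ‖z‖ := norm_pos_iff.2 hz0
  set S := ∑ i ∈ Finset.range n, w (g^[i] p) ^ (k - 1) with hS
  have hSpos : 0 < S := by
    by_contra h
    push Not at h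
    have h1 := abs_nonneg (Real.log ‖z‖)
    nlinarith
  set t := -Real.log ‖z‖ / S with ht
  have htS : t * S = -Real.log ‖z‖ := div_mul_cancel₀ _ hSpos.ne'
  have htabs : |t| ≤ c' := by
    rw [ht, abs_div, abs_neg, abs_of_pos hSpos, div_le_iff₀ hSpos]
    exact hcon.le
  set σ : M → ℝ := fun q => Real.exp (t * w q ^ (k - 1)) with hσ
  have hprod : ∏ i ∈ Finset.range n, σ (g^[i] p) = ‖z‖⁻¹ := by
    simp only [hσ]
    rw [← Real.exp_sum, ← Finset.mul_sum, htS, Real.exp_neg, Real.exp_log hznorm]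
  let B₂ : EndoField E M := fun q =>
    (σ q - 1) • ContinuousLinearMap.id ℝ (TangentSpace 𝓘(ℝ, E) q) + σ q • B q
  have hB₂ : ∀ (i : ℕ) (v : TangentSpace 𝓘(ℝ, E) (g^[i] p)),
      rnorm γ (g^[i] p) (B₂ (g^[i] p) v) ≤
        c * w (g^[i] p) ^ (k - 1) * rnorm γ (g^[i] p) v := by
    intro i v
    have h1 := (hw i).1
    have h2 := (hw i).2.1
    have h3 : 0 ≤ rnorm γ (g^[i] p) v := Real.sqrt_nonneg _
    have h4 : w (g^[i] p) ^ (k - 1) ≤ 1 := pow_le_one₀ h1 h2
    have h5 : 0 ≤ w (g^[i] p) ^ (k - 1) := by positivity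
    have h7 : |t * w (g^[i] p) ^ (k - 1)| ≤ 1 := by
      rw [abs_mul, abs_of_nonneg h5]
      nlinarith [abs_nonneg t]
    have h8 := Real.abs_exp_sub_one_le h7
    have h9 : |σ (g^[i] p) - 1| ≤ 2 * c' * w (g^[i] p) ^ (k - 1) := by
      refine h8.trans ?_
      rw [abs_mul, abs_of_nonneg h5]
      nlinarith
    have h10 : |σ (g^[i] p)| ≤ 2 := by
      have e1 : σ (g^[i] p) = 1 + (σ (g^[i] p) - 1) := by ring
      rw [e1]
      refine (abs_add_le _ _).trans ?_
      rw [abs_one]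
      nlinarith
    change rnorm γ (g^[i] p) ((σ (g^[i] p) - 1) • v + σ (g^[i] p) • B (g^[i] p) v) ≤ _
    refine (rnorm_add_le γ _ _ _).trans ?_
    rw [rnorm_smul, rnorm_smul]
    have h11 := hB i v
    have h12 : 0 ≤ rnorm γ (g^[i] p) (B (g^[i] p) v) := Real.sqrt_nonneg _
    have h13 : |σ (g^[i] p)| * rnorm γ (g^[i] p) (B (g^[i] p) v) ≤
        2 * (c' * w (g^[i] p) ^ (k - 1) * rnorm γ (g^[i] p) v) := by gcongr
    have h14 : |σ (g^[i] p) - 1| * rnorm γ (g^[i] p) v ≤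
        2 * c' * w (g^[i] p) ^ (k - 1) * rnorm γ (g^[i] p) v := by gcongr
    have h15 : 0 ≤ w (g^[i] p) ^ (k - 1) * rnorm γ (g^[i] p) v := by positivity
    nlinarith
  have hhyp := key g hg p hp w hw B₂ hB₂
  have h1 := pD_smul (f := g) (fun q => @id (E →L[ℝ] E) (B q)) σ n p
  have h2 : (pertDeriv g B₂ n p : E →L[ℝ] E) =
      (∏ i ∈ Finset.range n, σ (g^[i] p)) • @id (E →L[ℝ] E) (pertDeriv g B n p) := by
    have h3 := pertDeriv_eq g B₂ n p
    have h4 := pertDeriv_eq g B n p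
    have h5 : @id (E →L[ℝ] E) (pertDeriv g B n p) = pD g B n p := h4
    rw [h5]
    exact h3.trans h1
  refine norm_ne_one_of_isHyp (E := E) (z := ((∏ i ∈ Finset.range n, σ (g^[i] p) : ℝ) : ℂ) * z)
    hhyp ?_ ?_
  · rw [h2]
    exact Eig.smul hz _
  · rw [hprod, norm_mul, Complex.norm_real, norm_inv, norm_norm, inv_mul_cancel₀ hznorm.ne']

end CrS
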