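import Pool.Agent.CrS.Setup
import Pool.Agent.OmSt.Hyper

/-!
# The perturbation lemma
-/

open Set Filter Topology Manifold ContDiff Metric OmSt
open scoped NNReal

set_option linter.unusedSectionVars false

namespace CrS

universe u

variable {E : Type u} [NormedAddCommGroup E] [NormedSpace ℝ E]
  {M : Type*} [MetricSpace M] [ChartedSpace E M] {r : ℕ∞} [IsManifold 𝓘(ℝ, E) ∞ M]
  {ι : Type*} {l : Filter ι}

theorem chart_max (b : M) : chartAt E b ∈ IsManifold.maximalAtlas 𝓘(ℝ, E) ∞ M :=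
  IsManifold.chart_mem_maximalAtlas b

/-- The derivative of a glued map. -/
theorem D_glue {b q : M} (hq : q ∈ (chartAt E b).source)
    {ψ : Diffeomorph 𝓘(ℝ, E) 𝓘(ℝ, E) M M ∞} {u : E → E}
    (hψ : ∀ x, ψ x = glue (chartAt E b) (fun z => z + u z) x)
    (hu : ∀ z ∈ (chartAt E b).target, z + u z ∈ (chartAt E b).target) {B : E →L[ℝ] E}
    (hB : ∀ᶠ z in 𝓝 (chartAt E b q),
      u z = ((Dc b q : E →L[ℝ] E) * B * (Dc' b q : E →L[ℝ] E)) (z - chartAt E b q)) :
    ψ q = q ∧ (D ψ q : E →L[ℝ] E) = 1 + B := by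
  set e := chartAt E b with he
  set B' := (Dc b q : E →L[ℝ] E) * B * (Dc' b q : E →L[ℝ] E) with hB'
  have hfix : ψ q = q := by
    rw [hψ, glue_of_mem e _ hq]
    have h1 : u (e q) = 0 := by
      rw [hB.self_of_nhds, sub_self, map_zero]
    rw [h1, add_zero, e.left_inv hq]
  refine ⟨hfix, ?_⟩
  have h1 : fderiv ℝ (chG ψ b b) (e q) = (Dc b (ψ q) : E →L[ℝ] E) * D ψ q * Dc' b q :=
    fderiv_chG (ψ.contMDiff.mdifferentiable (by simp) q) hq (by rw [hfix]; exact hq)
  rw [hfix] at h1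
  have h2 : HasFDerivAt (fun z => z + B' (z - e q)) (1 + B') (e q) :=
    (hasFDerivAt_id (𝕜 := ℝ) (e q)).add
      (B'.hasFDerivAt.comp (e q) ((hasFDerivAt_id (𝕜 := ℝ) (e q)).sub_const (e q)))
  have h3 : (chG ψ b b : E → E) =ᶠ[𝓝 (e q)] (fun z => z + B' (z - e q)) := by
    filter_upwards [hB, e.open_target.mem_nhds (e.map_source hq)] with z hz hzt
    unfold chG
    rw [hψ, glue_of_mem _ _ (e.map_target hzt)]
    rw [e.right_inv hzt, e.right_inv (hu z hzt), hz]
  have h4 := Filter.EventuallyEq.fderiv_eq (𝕜 := ℝ) h3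
  have h5 := h2.fderiv
  rw [h5] at h4
  rw [h1] at h4
  obtain ⟨m1, m2⟩ := Dc_mul (E := E) (b := b) (x := q) hq
  have key : ∀ P P' A : E →L[ℝ] E, P' * P = 1 → P * A * P' = 1 + P * B * P' → A = 1 + B := by
    intro P P' A m2 h
    calc A = (P' * P) * A * (P' * P) := by rw [m2, one_mul, mul_one]
      _ = P' * (P * A * P') * P := by simp only [mul_assoc]
      _ = P' * (1 + P * B * P') * P := by rw [h]
      _ = (P' * P) + (P' * P) * B * (P' * P) := by
          rw [mul_add, add_mul, mul_one]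
          simp only [mul_assoc]
      _ = 1 + B := by rw [m2, one_mul, mul_one]
  exact key _ _ _ m2 h4

/-- The identity near a point. -/
theorem D_glue_one {q : M} {ψ : Diffeomorph 𝓘(ℝ, E) 𝓘(ℝ, E) M M ∞}
    (h : ∀ᶠ y in 𝓝 q, ψ y = y) : ψ q = q ∧ (D ψ q : E →L[ℝ] E) = 1 :=
  ⟨h.self_of_nhds, D_eq_one h⟩

/-- The diffeomorphism defined by a small map with compact support in a chart. -/
theorem exists_psi [FiniteDimensional ℝ E] {b : M} {K : Set M} (hK : IsCompact K)
    (hKs : K ⊆ (chartAt E b).source) {u : E → E} (hu : ContDiff ℝ ∞ u)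
    (hu0 : ∀ z ∉ chartAt E b '' K, u z = 0) (hb : ∀ z, ‖fderiv ℝ u z‖ ≤ 1 / 2) :
    (∀ z ∈ (chartAt E b).target, z + u z ∈ (chartAt E b).target) ∧
      ∃ ψ : Diffeomorph 𝓘(ℝ, E) 𝓘(ℝ, E) M M ∞,
        ∀ x, ψ x = glue (chartAt E b) (fun z => z + u z) x := by
  have hcomp : CompleteSpace E := FiniteDimensional.complete ℝ E
  have hKc : IsCompact (chartAt E b '' K) :=
    hK.image_of_continuousOn ((chartAt E b).continuousOn.mono hKs)
  have hKt : chartAt E b '' K ⊆ (chartAt E b).target := by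
    rintro _ ⟨y, hy, rfl⟩
    exact (chartAt E b).map_source (hKs hy)
  have hlip : LipschitzWith (1 / 2) u := by
    refine lipschitzWith_of_nnnorm_fderiv_le (𝕜 := ℝ) (hu.differentiable (by simp)) fun z => ?_
    have := hb z
    exact_mod_cast this
  obtain ⟨τ, hτ, h1, h2⟩ := diffeo_of_lip hu hlip (by
    rw [← NNReal.coe_lt_coe]; norm_num)
  have hid : ∀ y ∉ chartAt E b '' K, τ y = y := by
    intro y hy
    rw [hτ, hu0 y hy, add_zero]
  have hmap : MapsTo τ (chartAt E b '' K) (chartAt E b '' K) :=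
    mapsTo_of_eq_self τ.injective hid
  refine ⟨fun z hz => ?_, ?_⟩
  · by_cases h : z ∈ chartAt E b '' K
    · have := hKt (hmap h)
      rwa [hτ] at this
    · rw [hu0 z h, add_zero]
      exact hz
  · obtain ⟨ψ, hψ⟩ := exists_glue_diffeo (chart_max (E := E) b) hKc hKt h1 h2 hid
    refine ⟨ψ, fun x => ?_⟩
    rw [hψ]
    have : (τ : E → E) = fun z => z + u z := funext hτ
    rw [this]

/-- **Perturbations with prescribed derivatives, which converge to the identity.** -/
theorem Setup.exists_pert [FiniteDimensional ℝ E] {γ : RMetric E M} {s : Finset M}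
    {K : M → Set M} {ρ₀ C₀ κ : ℝ} (hS : Setup (E := E) γ s K ρ₀ C₀ κ) {k : ℕ} (hk : 1 ≤ k)
    {bq : M → M} (hbq : ∀ q, closedBall q ρ₀ ⊆ K (bq q)) {O : ι → Finset M} {w : ι → M → ℝ}
    {B : ι → M → E →L[ℝ] E} {δ : ι → ℝ} (hD : ∀ i, Dat (E := E) γ k (O i) (w i) (B i) (δ i))
    (hδ : Tendsto δ l (𝓝 0)) : ∀ t : Finset M, t ⊆ s →
    ∃ Ψ : ι → Diffeomorph 𝓘(ℝ, E) 𝓘(ℝ, E) M M ∞,
      (∀ x, MC E l k (fun i => (Ψ i : M → M)) id x) ∧
      ∀ᶠ i in l, ∀ q ∈ O i, Ψ i q = q ∧
        (bq q ∈ t → (D (Ψ i) q : E →L[ℝ] E) = 1 + B i q) ∧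
        (bq q ∉ t → (D (Ψ i) q : E →L[ℝ] E) = 1) := by
  classical
  obtain ⟨C₁, hC₁, hex⟩ := hS.exists_u hk hbq
  intro t
  induction t using Finset.induction_on with
  | empty =>
    intro _
    refine ⟨fun _ => Diffeomorph.refl _ _ _, fun x => MC.id x, Eventually.of_forall
      fun i q _ => ⟨rfl, fun h => absurd h (Finset.notMem_empty _), fun _ => D_id q⟩⟩
  | @insert b t hbt ih =>
    intro hts
    obtain ⟨Ψ, hΨ1, hΨ2⟩ := ih ((Finset.subset_insert b t).trans hts)
    have hb : b ∈ s := hts (Finset.mem_insert_self b t)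
    have hKb := hS.cov.cpt b hb
    have hKs := hS.cov.src b hb
    have hstep : ∀ i, ∃ (u : E → E) (ψ : Diffeomorph 𝓘(ℝ, E) 𝓘(ℝ, E) M M ∞), ContDiff ℝ ∞ u ∧
        (∀ z ∉ chartAt E b '' K b, u z = 0) ∧
        (∀ j ≤ k, ∀ z, ‖iteratedFDeriv ℝ j u z‖ ≤ C₁ * δ i) ∧
        (∀ z ∈ (chartAt E b).target, z + u z ∈ (chartAt E b).target) ∧
        (∀ x, ψ x = glue (chartAt E b) (fun z => z + u z) x) ∧
        (C₁ * δ i ≤ 1 / 2 → (∀ q ∈ O i, bq q = b → ∀ᶠ z in 𝓝 (chartAt E b q),
          u z = ((Dc b q : E →L[ℝ] E) * B i q * (Dc' b q : E →L[ℝ] E)) (z - chartAt E b q)) ∧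
          (∀ q ∈ O i, bq q ≠ b → q ∈ (chartAt E b).source →
            ∀ᶠ z in 𝓝 (chartAt E b q), u z = 0)) := by
      intro i
      have hδi := (hD i).nonneg
      by_cases hsm : C₁ * δ i ≤ 1 / 2
      · obtain ⟨u, h1, h2, h3, h4, h5⟩ := hex b hb (O i) (w i) (B i) (δ i) (hD i)
        obtain ⟨h6, ψ, h7⟩ := exists_psi hKb hKs h1 h2 (fun z => by
          have := h3 1 hk z
          rw [norm_iteratedFDeriv_one] at this
          exact this.trans hsm)
        exact ⟨u, ψ, h1, h2, h3, h6, h7, fun _ => ⟨h4, h5⟩⟩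
      · have h1 : ContDiff ℝ ∞ (fun _ : E => (0 : E)) := contDiff_const
        obtain ⟨h6, ψ, h7⟩ := exists_psi (b := b) hKb hKs h1 (fun _ _ => rfl) (fun z => by
          rw [fderiv_const_apply, norm_zero]
          norm_num)
        refine ⟨fun _ => 0, ψ, h1, fun _ _ => rfl, fun j _ z => ?_, h6, h7,
          fun h => absurd h hsm⟩
        have h2 : iteratedFDeriv ℝ j (fun _ : E => (0 : E)) z = 0 := by
          rw [iteratedFDeriv_fun_zero]
          rfl
        rw [h2, norm_zero]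
        positivity
    choose u ψ hu1 hu2 hu3 hu4 hψ hu5 using hstep
    have hlim : Tendsto (fun i => C₁ * δ i) l (𝓝 0) := by
      have := hδ.const_mul C₁
      rwa [mul_zero] at this
    have hKc : IsCompact (chartAt E b '' K b) :=
      hKb.image_of_continuousOn ((chartAt E b).continuousOn.mono hKs)
    have hKt : chartAt E b '' K b ⊆ (chartAt E b).target := by
      rintro _ ⟨y, hy, rfl⟩
      exact (chartAt E b).map_source (hKs hy)
    have hmc : ∀ x, MC E l k (fun i => (ψ i : M → M)) id x := by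
      intro x
      refine (mc_glue (chart_max (E := E) b) hKc hKt hlim hu1 hu3 hu2 hu4 x).congr'
        (Eventually.of_forall fun p => ?_)
      exact (hψ p.1 p.2).symm
    -- the derivatives of the new factor
    have hev : ∀ᶠ i in l, C₁ * δ i ≤ 1 / 2 := hlim.eventually (Iic_mem_nhds (by norm_num))
    have hnew : ∀ᶠ i in l, ∀ q ∈ O i, ψ i q = q ∧
        (bq q = b → (D (ψ i) q : E →L[ℝ] E) = 1 + B i q) ∧
        (bq q ≠ b → (D (ψ i) q : E →L[ℝ] E) = 1) := by
      filter_upwards [hev] with i hi q hq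
      obtain ⟨h4, h5⟩ := hu5 i hi
      by_cases hqb : bq q = b
      · have hqK : q ∈ K b := by
          have := hbq q (mem_closedBall_self hS.cov.pos.le)
          rwa [hqb] at this
        obtain ⟨h6, h7⟩ := D_glue (hKs hqK) (hψ i) (hu4 i) (h4 q hq hqb)
        exact ⟨h6, fun _ => h7, fun h => absurd hqb h⟩
      · have hnear : ∀ᶠ y in 𝓝 q, ψ i y = y := by
          by_cases hqs : q ∈ (chartAt E b).source
          · have h6 := h5 q hq hqb hqs
            have h7 : ∀ᶠ y in 𝓝 q, u i (chartAt E b y) = 0 :=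
              ((chartAt E b).continuousAt hqs).eventually h6
            filter_upwards [h7, (chartAt E b).open_source.mem_nhds hqs] with y hy hys
            rw [hψ, glue_of_mem _ _ hys, hy, add_zero, (chartAt E b).left_inv hys]
          · have h0 : q ∉ (chartAt E b).symm '' (chartAt E b '' K b) := by
              rintro ⟨y, hy, rfl⟩
              exact hqs ((chartAt E b).map_target (hKt hy))
            filter_upwards [(isClosed_image_symm (chartAt E b) hKc hKt).isOpen_compl.mem_nhds h0]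
              with y hy
            rw [hψ, glue_eq_self (chartAt E b) (fun z hz => by rw [hu2 i z hz, add_zero]) hy]
        obtain ⟨h8, h9⟩ := D_glue_one hnear
        exact ⟨h8, fun h => absurd h hqb, fun _ => h9⟩
    refine ⟨fun i => (Ψ i).trans (ψ i), fun x => ?_, ?_⟩
    · exact MC.comp (G := fun i => (ψ i : M → M)) (G₀ := id) (H := fun i => (Ψ i : M → M))
        (H₀ := id) (hmc x) (hΨ1 x)
    · filter_upwards [hΨ2, hnew] with i h1 h2 q hq
      obtain ⟨a1, a2, a3⟩ := h1 q hq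
      obtain ⟨b1, b2, b3⟩ := h2 q hq
      have hcomp : (((Ψ i).trans (ψ i) : Diffeomorph 𝓘(ℝ, E) 𝓘(ℝ, E) M M ∞) : M → M) =
          (ψ i) ∘ (Ψ i) := rfl
      have hDc : (D ((Ψ i).trans (ψ i)) q : E →L[ℝ] E) = (D (ψ i) q : E →L[ℝ] E) * D (Ψ i) q := by
        rw [hcomp, D_comp ((ψ i).contMDiff.mdifferentiable (by simp) _)
          ((Ψ i).contMDiff.mdifferentiable (by simp) _), a1]
      refine ⟨?_, fun hq2 => ?_, fun hq2 => ?_⟩
      · change ψ i (Ψ i q) = q
        rw [a1, b1]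
      · rw [hDc]
        rcases Finset.mem_insert.1 hq2 with h | h
        · have : bq q ∉ t := by rw [h]; exact hbt
          rw [b2 h, a3 this, mul_one]
        · have : bq q ≠ b := by
            rintro h'
            rw [h'] at h
            exact hbt h
          rw [b3 this, a2 h, one_mul]
      · rw [hDc]
        have h1 : bq q ≠ b := fun h => hq2 (by rw [h]; exact Finset.mem_insert_self b t)
        have h2 : bq q ∉ t := fun h => hq2 (Finset.mem_insert_of_mem h)
        rw [b3 h1, a3 h2, one_mul]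

end CrS
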