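import Pool.Agent.CrS.MGlue
import Pool.Agent.CrS.Bump
import Pool.Agent.OmSt2.RM2

/-!
# Perturbations of the identity with prescribed derivatives at the points of a finite set
-/

open Set Filter Topology Manifold ContDiff Metric OmSt
open scoped NNReal

set_option linter.unusedSectionVars false

namespace CrS

universe u

variable {E : Type u} [NormedAddCommGroup E] [NormedSpace ℝ E]
  {M : Type*} [MetricSpace M] [ChartedSpace E M]

variable (E M) in
/-- The inverses of the charts are locally Lipschitz for the distance of `M`. -/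
def LipCharts : Prop := ∀ x : M, ∃ C : ℝ, ∃ U ∈ 𝓝 x, ∀ y ∈ U, ∀ z ∈ U,
  dist y z ≤ C * ‖chartAt E x y - chartAt E x z‖

variable [IsManifold 𝓘(ℝ, E) ∞ M]

/-- The geometric data which are used to construct the perturbations. -/
structure Setup (γ : RMetric E M) (s : Finset M) (K : M → Set M) (ρ₀ C₀ κ : ℝ) : Prop where
  cov : Cov E s K ρ₀
  one_le : 1 ≤ C₀
  pos : 0 < κ
  le : κ ≤ 1 / (4 * C₀)
  cmp : ∀ b ∈ s, ∀ y ∈ K b, ∀ v : E, ‖(Dc b y : E →L[ℝ] E) v‖ ≤ C₀ * rnorm γ y v ∧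
    rnorm γ y v ≤ C₀ * ‖(Dc b y : E →L[ℝ] E) v‖
  lip : ∀ b ∈ s, ∀ y ∈ K b, ∀ z ∈ K b, dist y z ≤ C₀ * ‖chartAt E b y - chartAt E b z‖
  ball : ∀ b ∈ s, ∀ x, closedBall x ρ₀ ⊆ K b →
    closedBall (chartAt E b x) κ ⊆ chartAt E b '' K b

theorem exists_setup [FiniteDimensional ℝ E] [CompactSpace M] (γ : RMetric E M)
    (hd : LipCharts E M) : ∃ s K ρ₀ C₀ κ, Setup (E := E) (M := M) γ s K ρ₀ C₀ κ := by
  have hloc : ∀ b : M, ∃ C > 0, ∀ᶠ y in 𝓝 b, ∀ v : E,
      ‖(Dc b y : E →L[ℝ] E) v‖ ≤ C * rnorm γ y v ∧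
        rnorm γ y v ≤ C * ‖(Dc b y : E →L[ℝ] E) v‖ := fun b => exists_comparison γ b
  choose C hC hCloc using hloc
  choose C' U hU hC' using hd
  obtain ⟨s, K, ρ₀, hc, hK⟩ := exists_cov E (M := M)
    (U := fun b => {y | ∀ v : E, ‖(Dc b y : E →L[ℝ] E) v‖ ≤ C b * rnorm γ y v ∧
        rnorm γ y v ≤ C b * ‖(Dc b y : E →L[ℝ] E) v‖} ∩ U b)
    (fun b => inter_mem (hCloc b) (hU b))
  set C₀ : ℝ := 1 + ∑ b ∈ s, (C b + |C' b|) with hC₀
  have hnn : ∀ b ∈ s, 0 ≤ C b + |C' b| := fun b _ => by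
    have := (hC b).le
    positivity
  have hle : ∀ b ∈ s, C b + |C' b| ≤ C₀ := fun b hb => by
    have := Finset.single_le_sum (f := fun b => C b + |C' b|) hnn hb
    linarith
  have h1le : 1 ≤ C₀ := by
    have := Finset.sum_nonneg hnn
    linarith
  obtain ⟨κ₀, hκ₀, hκ₀pos⟩ := ((hc.symm_close hc.pos).and self_mem_nhdsWithin).exists
  have hκ₀pos : 0 < κ₀ := hκ₀pos
  refine ⟨s, K, ρ₀, C₀, min κ₀ (1 / (4 * C₀)), hc, h1le, lt_min hκ₀pos (by positivity),
    min_le_right _ _, fun b hb y hy v => ?_, fun b hb y hy z hz => ?_, fun b hb x hx => ?_⟩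
  · have h1 := (hK b hb hy).1 v
    have hn : 0 ≤ rnorm γ y v := Real.sqrt_nonneg _
    have h2 := hle b hb
    have h3 := abs_nonneg (C' b)
    exact ⟨h1.1.trans (mul_le_mul_of_nonneg_right (by linarith) hn),
      h1.2.trans (mul_le_mul_of_nonneg_right (by linarith) (norm_nonneg _))⟩
  · have h1 := hC' b y (hK b hb hy).2 z (hK b hb hz).2
    have h2 := hle b hb
    have h3 := (hC b).le
    have h4 := le_abs_self (C' b)
    exact h1.trans (mul_le_mul_of_nonneg_right (by linarith) (norm_nonneg _))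
  · intro z hz
    have hxK : x ∈ K b := hx (mem_closedBall_self hc.pos.le)
    obtain ⟨h1, h2⟩ := hκ₀ b hb x hxK z (closedBall_subset_closedBall (min_le_left _ _) hz)
    exact ⟨(chartAt E b).symm z, hx h2, (chartAt E b).right_inv h1⟩

/-- The data of a perturbation: a finite set `O`, separated by the function `w`, and linear maps
of size at most `δ w ^ (k - 1)` at the points of `O`. -/
structure Dat (γ : RMetric E M) (k : ℕ) (O : Finset M) (w : M → ℝ) (B : M → E →L[ℝ] E)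
    (δ : ℝ) : Prop where
  nonneg : 0 ≤ δ
  pos : ∀ q ∈ O, 0 < w q ∧ w q ≤ 1
  sep : ∀ q ∈ O, ∀ q' ∈ O, q ≠ q' → w q ≤ dist q q'
  bd : ∀ q ∈ O, ∀ v : E, rnorm γ q (B q v) ≤ δ * w q ^ (k - 1) * rnorm γ q v

theorem Setup.exists_u [FiniteDimensional ℝ E] {γ : RMetric E M} {s : Finset M} {K : M → Set M}
    {ρ₀ C₀ κ : ℝ} (hS : Setup (E := E) γ s K ρ₀ C₀ κ) {k : ℕ} (hk : 1 ≤ k) {bq : M → M}
    (hbq : ∀ q, closedBall q ρ₀ ⊆ K (bq q)) :
    ∃ C₁ : ℝ, 0 < C₁ ∧ ∀ b ∈ s, ∀ (O : Finset M) (w : M → ℝ) (B : M → E →L[ℝ] E) (δ : ℝ),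
      Dat (E := E) γ k O w B δ → ∃ u : E → E, ContDiff ℝ ∞ u ∧
        (∀ z ∉ chartAt E b '' K b, u z = 0) ∧ (∀ j ≤ k, ∀ z, ‖iteratedFDeriv ℝ j u z‖ ≤ C₁ * δ) ∧
        (∀ q ∈ O, bq q = b → ∀ᶠ z in 𝓝 (chartAt E b q),
          u z = ((Dc b q : E →L[ℝ] E) * B q * (Dc' b q : E →L[ℝ] E)) (z - chartAt E b q)) ∧
        (∀ q ∈ O, bq q ≠ b → q ∈ (chartAt E b).source → ∀ᶠ z in 𝓝 (chartAt E b q), u z = 0) := by
  classical
  obtain ⟨C, hC, hbump⟩ := exists_bump (E := E) M hk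
  have hC₀ : 0 < C₀ := one_pos.trans_le hS.one_le
  have hκ := hS.pos
  have hκ1 : κ * (4 * C₀) ≤ 1 := by
    have := hS.le
    rwa [le_div_iff₀ (by positivity)] at this
  have hκ2 : κ ≤ 1 := by nlinarith [hS.one_le]
  refine ⟨C * (C₀ ^ 2 / κ ^ (k - 1)), by positivity, fun b hb O w B δ hD => ?_⟩
  have hδ := hD.nonneg
  set Q := O.filter (fun q => bq q = b) with hQ
  have hQO : ∀ q ∈ Q, q ∈ O := fun q hq => (Finset.mem_filter.1 hq).1
  have hQb : ∀ q ∈ Q, bq q = b := fun q hq => (Finset.mem_filter.1 hq).2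
  have hQball : ∀ q ∈ Q, closedBall q ρ₀ ⊆ K b := fun q hq => by
    have := hbq q
    rwa [hQb q hq] at this
  have hQK : ∀ q ∈ Q, q ∈ K b := fun q hq => hQball q hq (mem_closedBall_self hS.cov.pos.le)
  have hR : ∀ q ∈ Q, closedBall (chartAt E b q) (κ * w q) ⊆ closedBall (chartAt E b q) κ := by
    intro q hq
    have := (hD.pos q (hQO q hq)).2
    exact closedBall_subset_closedBall (by nlinarith)
  have hc1 : ∀ q ∈ Q, 0 < κ * w q ∧ κ * w q ≤ 1 ∧
      ‖(Dc b q : E →L[ℝ] E) * B q * (Dc' b q : E →L[ℝ] E)‖ ≤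
        C₀ ^ 2 / κ ^ (k - 1) * δ * (κ * w q) ^ (k - 1) := by
    intro q hq
    have hw := hD.pos q (hQO q hq)
    have hqs := hS.cov.src b hb (hQK q hq)
    have hw0 := hw.1
    refine ⟨by positivity, by nlinarith, ?_⟩
    refine ContinuousLinearMap.opNorm_le_bound _ (by positivity) fun z => ?_
    have h1 := (hS.cmp b hb q (hQK q hq) (B q ((Dc' b q : E →L[ℝ] E) z))).1
    have h2 := hD.bd q (hQO q hq) ((Dc' b q : E →L[ℝ] E) z)
    have h3 := (hS.cmp b hb q (hQK q hq) ((Dc' b q : E →L[ℝ] E) z)).2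
    rw [Dc_Dc' hqs] at h3
    calc ‖((Dc b q : E →L[ℝ] E) * B q * (Dc' b q : E →L[ℝ] E)) z‖
        = ‖(Dc b q : E →L[ℝ] E) (B q ((Dc' b q : E →L[ℝ] E) z))‖ := rfl
      _ ≤ C₀ * (δ * w q ^ (k - 1) * (C₀ * ‖z‖)) := by
          refine h1.trans ?_
          gcongr
          refine h2.trans ?_
          gcongr
      _ = C₀ ^ 2 / κ ^ (k - 1) * δ * (κ * w q) ^ (k - 1) * ‖z‖ := by
          rw [mul_pow]
          field_simp
  have hc2 : ∀ q ∈ Q, ∀ q' ∈ Q, q ≠ q' → Disjoint (closedBall (chartAt E b q) (κ * w q))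
      (closedBall (chartAt E b q') (κ * w q')) := by
    intro q hq q' hq' hne
    rw [Set.disjoint_left]
    intro z hz hz'
    rw [mem_closedBall, dist_eq_norm] at hz hz'
    have h1 := hS.lip b hb q (hQK q hq) q' (hQK q' hq')
    have h2 := hD.sep q (hQO q hq) q' (hQO q' hq') hne
    have h3 := hD.sep q' (hQO q' hq') q (hQO q hq) hne.symm
    rw [dist_comm q' q] at h3
    have h4 := (hD.pos q (hQO q hq)).1
    have h5 : ‖chartAt E b q - chartAt E b q'‖ ≤ κ * w q + κ * w q' := by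
      have e1 : chartAt E b q - chartAt E b q' = (z - chartAt E b q') - (z - chartAt E b q) := by
        abel
      rw [e1]
      refine (norm_sub_le _ _).trans ?_
      linarith
    have h6 : C₀ * ‖chartAt E b q - chartAt E b q'‖ ≤ C₀ * (κ * w q + κ * w q') := by gcongr
    have h7 : C₀ * (κ * w q + κ * w q') ≤ C₀ * (κ * dist q q' + κ * dist q q') := by gcongr
    nlinarith [dist_nonneg (x := q) (y := q')]
  obtain ⟨u, hu, hu0, hu1, hub⟩ := hbump Q (fun q => chartAt E b q) (fun q => κ * w q)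
    (fun q => (Dc b q : E →L[ℝ] E) * B q * (Dc' b q : E →L[ℝ] E)) (C₀ ^ 2 / κ ^ (k - 1) * δ)
    (by positivity) hc1 hc2
  refine ⟨u, hu, fun z hz => hu0 z fun q hq hzq => ?_, fun j hj z => ?_, fun q hq hqb => ?_,
    fun q hq hqb hqs => ?_⟩
  · exact hz (hS.ball b hb q (hQball q hq) (hR q hq hzq))
  · rw [mul_assoc]
    exact hub j hj z
  · have hqQ : q ∈ Q := Finset.mem_filter.2 ⟨hq, hqb⟩
    have hw := (hD.pos q hq).1
    filter_upwards [closedBall_mem_nhds (chartAt E b q) (by positivity : 0 < κ * w q / 2)]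
      with z hz
    exact hu1 q hqQ z hz
  · have h1 : ∀ q' ∈ Q, chartAt E b q ∉ closedBall (chartAt E b q') (κ * w q') := by
      intro q' hq' hmem
      have hne : q' ≠ q := by
        rintro rfl
        exact hqb (hQb _ hq')
      obtain ⟨y, hyK, hy⟩ := hS.ball b hb q' (hQball q' hq') (hR q' hq' hmem)
      have hyq : y = q := (chartAt E b).injOn (hS.cov.src b hb hyK) hqs hy
      rw [hyq] at hyK
      have h2 := hS.lip b hb q' (hQK q' hq') q hyK
      rw [mem_closedBall, dist_eq_norm, norm_sub_rev] at hmem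
      have h3 := hD.sep q' (hQO q' hq') q hq hne
      have h4 := (hD.pos q' (hQO q' hq')).1
      have h5 : C₀ * ‖chartAt E b q' - chartAt E b q‖ ≤ C₀ * (κ * w q') := by gcongr
      nlinarith
    have h2 : ∀ᶠ z in 𝓝 (chartAt E b q), ∀ q' ∈ Q,
        z ∉ closedBall (chartAt E b q') (κ * w q') := by
      rw [Filter.eventually_all_finset]
      intro q' hq'
      exact isClosed_closedBall.isOpen_compl.mem_nhds (h1 q' hq')
    filter_upwards [h2] with z hz
    exact hu0 z hz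

end CrS
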