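import Pool.Agent.CrS.Pert

/-!
# Small translations near a point
-/

open Set Filter Topology Manifold ContDiff Metric OmSt
open scoped NNReal

set_option linter.unusedSectionVars false

namespace CrS

universe u

variable {E : Type u} [NormedAddCommGroup E] [NormedSpace ℝ E]
  {M : Type*} [MetricSpace M] [ChartedSpace E M]

variable (E M) in
/-- In the charts, the distance of `M` is locally equivalent to the distance of the model
space. -/
def BiLipCharts : Prop := ∀ x : M, ∃ C : ℝ, ∃ U ∈ 𝓝 x, ∀ y ∈ U, ∀ z ∈ U,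
  dist y z ≤ C * ‖chartAt E x y - chartAt E x z‖ ∧
    ‖chartAt E x y - chartAt E x z‖ ≤ C * dist y z

/-- The model translation: a bump function times a vector. -/
theorem exists_bump_translation [FiniteDimensional ℝ E] (k : ℕ) : ∃ C : ℝ, 0 < C ∧
    ∀ (c : E) (R : ℝ) (a : E), 0 < R → R ≤ 1 → ∃ u : E → E, ContDiff ℝ ∞ u ∧
      (∀ z ∉ closedBall c R, u z = 0) ∧ u c = a ∧
      ∀ j ≤ k, ∀ z, ‖iteratedFDeriv ℝ j u z‖ ≤ C * (‖a‖ / R ^ k) := by
  let β : ContDiffBump (0 : E) := ⟨1 / 2, 1, by norm_num, by norm_num⟩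
  have hβs : ContDiff ℝ ∞ β := β.contDiff
  have hβc : HasCompactSupport (β : E → ℝ) := β.hasCompactSupport
  have h1 : ∀ j : ℕ, ∃ C, ∀ z, ‖iteratedFDeriv ℝ j (β : E → ℝ) z‖ ≤ C := by
    intro j
    obtain ⟨C, hC⟩ := (hβs.continuous_iteratedFDeriv (m := j) (by
      exact_mod_cast le_top)).bounded_above_of_compact_support (hβc.iteratedFDeriv j)
    exact ⟨C, hC⟩
  choose C hC using h1
  set C₀ : ℝ := 1 + ∑ j ∈ Finset.range (k + 1), |C j| with hC₀
  have hC₀' : ∀ j ≤ k, ∀ z, ‖iteratedFDeriv ℝ j (β : E → ℝ) z‖ ≤ C₀ := by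
    intro j hj z
    have h2 : |C j| ≤ ∑ j ∈ Finset.range (k + 1), |C j| :=
      Finset.single_le_sum (f := fun j => |C j|) (fun _ _ => abs_nonneg _)
        (Finset.mem_range.2 (by omega))
    have h3 := hC j z
    have h4 := le_abs_self (C j)
    linarith
  have hC₀pos : 0 < C₀ := by positivity
  refine ⟨C₀, hC₀pos, fun c R a hR hR1 => ?_⟩
  set g : E →L[ℝ] E := R⁻¹ • ContinuousLinearMap.id ℝ E with hg
  have hgn : ‖g‖ ≤ R⁻¹ := by
    refine ContinuousLinearMap.opNorm_le_bound _ (by positivity) fun x => ?_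
    simp [hg, norm_smul, abs_of_pos hR]
  set L : ℝ →L[ℝ] E := ContinuousLinearMap.toSpanSingleton ℝ a with hL
  have hLn : ‖L‖ ≤ ‖a‖ := by
    refine ContinuousLinearMap.opNorm_le_bound _ (norm_nonneg _) fun x => ?_
    simp [hL, norm_smul, mul_comm]
  have e1 : ∀ z, L (β (R⁻¹ • (z - c))) = β (R⁻¹ • (z - c)) • a := fun z => rfl
  refine ⟨fun z => L (β (R⁻¹ • (z - c))), ?_, fun z hz => ?_, ?_, fun j hj z => ?_⟩
  · exact L.contDiff.comp (hβs.comp (contDiff_const.smul (contDiff_id.sub contDiff_const)))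
  · have h2 : β (R⁻¹ • (z - c)) = 0 := β.zero_of_le_dist (by
      rw [mem_closedBall, dist_eq_norm, not_le] at hz
      change 1 ≤ dist (R⁻¹ • (z - c)) 0
      rw [dist_zero_right, norm_smul, norm_inv, Real.norm_eq_abs, abs_of_pos hR, inv_mul_eq_div,
        le_div_iff₀ hR, one_mul]
      exact hz.le)
    change L (β (R⁻¹ • (z - c))) = 0
    rw [h2, map_zero]
  · have h2 : β (R⁻¹ • (c - c)) = 1 := by
      rw [sub_self, smul_zero]
      exact β.one_of_mem_closedBall (mem_closedBall_self (by norm_num))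
    change L (β (R⁻¹ • (c - c))) = a
    rw [h2]
    simp [hL]
  · have h2 : ∀ y, ‖iteratedFDeriv ℝ j ((β : E → ℝ) ∘ g) y‖ ≤ C₀ * (R⁻¹) ^ j := by
      intro y
      rw [g.iteratedFDeriv_comp_right hβs y (i := j) (by exact_mod_cast le_top)]
      refine (ContinuousMultilinearMap.norm_compContinuousLinearMap_le _ _).trans ?_
      rw [Finset.prod_const, Finset.card_univ, Fintype.card_fin]
      gcongr
      exact hC₀' j hj _
    have h3 : ∀ y, ‖iteratedFDeriv ℝ j (L ∘ ((β : E → ℝ) ∘ g)) y‖ ≤ ‖L‖ * (C₀ * (R⁻¹) ^ j) := by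
      intro y
      refine (L.norm_iteratedFDeriv_comp_left
        ((hβs.comp g.contDiff).contDiffAt (x := y)) (n := j) (by exact_mod_cast le_top)).trans ?_
      gcongr
      exact h2 y
    have e2 : (fun z => L (β (R⁻¹ • (z - c)))) = fun z => (L ∘ ((β : E → ℝ) ∘ g)) (z - c) := by
      funext z
      simp [hg]
    rw [e2, iteratedFDeriv_comp_sub]
    refine (h3 _).trans ?_
    have h4 : (R⁻¹) ^ j ≤ (R ^ k)⁻¹ := by
      rw [inv_pow]
      gcongr ?_⁻¹
      exact pow_le_pow_of_le_one hR.le hR1 hj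
    calc ‖L‖ * (C₀ * (R⁻¹) ^ j) ≤ ‖a‖ * (C₀ * (R ^ k)⁻¹) := by gcongr
      _ = C₀ * (‖a‖ / R ^ k) := by rw [div_eq_mul_inv]; ring

/-- The geometric data. -/
structure Setup2 (s : Finset M) (K : M → Set M) (ρ₀ C₀ κ : ℝ) : Prop where
  cov : Cov E s K ρ₀
  one_le : 1 ≤ C₀
  pos : 0 < κ
  le : κ ≤ 1 / (4 * C₀)
  lip : ∀ b ∈ s, ∀ y ∈ K b, ∀ z ∈ K b, dist y z ≤ C₀ * ‖chartAt E b y - chartAt E b z‖
  lip' : ∀ b ∈ s, ∀ y ∈ K b, ∀ z ∈ K b, ‖chartAt E b y - chartAt E b z‖ ≤ C₀ * dist y z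
  ball : ∀ b ∈ s, ∀ x, closedBall x ρ₀ ⊆ K b →
    closedBall (chartAt E b x) κ ⊆ chartAt E b '' K b

theorem exists_setup2 [IsManifold 𝓘(ℝ, E) ∞ M] [FiniteDimensional ℝ E] [CompactSpace M]
    (hd : BiLipCharts E M) :
    ∃ s K ρ₀ C₀ κ, Setup2 (E := E) (M := M) s K ρ₀ C₀ κ := by
  choose C U hU hC using hd
  obtain ⟨s, K, ρ₀, hc, hK⟩ := exists_cov E (M := M) (U := U) hU
  set C₀ : ℝ := 1 + ∑ b ∈ s, |C b| with hC₀
  have hle : ∀ b ∈ s, |C b| ≤ C₀ := fun b hb => by
    have := Finset.single_le_sum (f := fun b => |C b|) (fun _ _ => abs_nonneg _) hb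
    linarith
  have h1le : 1 ≤ C₀ := by
    have := Finset.sum_nonneg (s := s) (f := fun b => |C b|) (fun _ _ => abs_nonneg _)
    linarith
  obtain ⟨κ₀, hκ₀, hκ₀pos⟩ := ((hc.symm_close hc.pos).and self_mem_nhdsWithin).exists
  have hκ₀pos : 0 < κ₀ := hκ₀pos
  refine ⟨s, K, ρ₀, C₀, min κ₀ (1 / (4 * C₀)), hc, h1le, lt_min hκ₀pos (by positivity),
    min_le_right _ _, fun b hb y hy z hz => ?_, fun b hb y hy z hz => ?_, fun b hb x hx => ?_⟩
  · have h1 := (hC b y (hK b hb hy) z (hK b hb hz)).1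
    have h4 := le_abs_self (C b)
    exact h1.trans (mul_le_mul_of_nonneg_right (h4.trans (hle b hb)) (norm_nonneg _))
  · have h1 := (hC b y (hK b hb hy) z (hK b hb hz)).2
    have h4 := le_abs_self (C b)
    exact h1.trans (mul_le_mul_of_nonneg_right (h4.trans (hle b hb)) dist_nonneg)
  · intro z hz
    have hxK : x ∈ K b := hx (mem_closedBall_self hc.pos.le)
    obtain ⟨h1, h2⟩ := hκ₀ b hb x hxK z (closedBall_subset_closedBall (min_le_left _ _) hz)
    exact ⟨(chartAt E b).symm z, hx h2, (chartAt E b).right_inv h1⟩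

variable [IsManifold 𝓘(ℝ, E) ∞ M] {ι : Type*} {l : Filter ι}

/-- A family of perturbations, each of them supported in one chart. -/
theorem Setup2.exists_pert [FiniteDimensional ℝ E] {s : Finset M} {K : M → Set M}
    {ρ₀ C₀ κ : ℝ} (hS : Setup2 (E := E) s K ρ₀ C₀ κ) {k : ℕ} (hk : 1 ≤ k) {bq : ι → M}
    {u : ι → E → E} (hu : ∀ x, ContDiff ℝ ∞ (u x))
    (hu0 : ∀ x, bq x ∈ s → ∀ z ∉ chartAt E (bq x) '' K (bq x), u x z = 0) {ε : ι → ℝ}
    (hub : ∀ x, ∀ j ≤ k, ∀ z, ‖iteratedFDeriv ℝ j (u x) z‖ ≤ ε x) (hε : Tendsto ε l (𝓝 0)) :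
    ∀ t : Finset M, t ⊆ s → ∃ Ψ : ι → Diffeomorph 𝓘(ℝ, E) 𝓘(ℝ, E) M M ∞,
      (∀ p, MC E l k (fun x => (Ψ x : M → M)) id p) ∧
      ∀ᶠ x in l, (bq x ∈ t → ∀ v, Ψ x v = glue (chartAt E (bq x)) (fun z => z + u x z) v) ∧
        (bq x ∉ t → ∀ v, Ψ x v = v) := by
  classical
  intro t
  induction t using Finset.induction_on with
  | empty =>
    intro _
    exact ⟨fun _ => Diffeomorph.refl _ _ _, fun x => MC.id x, Eventually.of_forall
      fun x => ⟨fun h => absurd h (Finset.notMem_empty _), fun _ _ => rfl⟩⟩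
  | @insert b t hbt ih =>
    intro hts
    obtain ⟨Ψ, hΨ1, hΨ2⟩ := ih ((Finset.subset_insert b t).trans hts)
    have hb : b ∈ s := hts (Finset.mem_insert_self b t)
    have hKb := hS.cov.cpt b hb
    have hKs := hS.cov.src b hb
    have hzero : ∀ (j : ℕ) (z : E), iteratedFDeriv ℝ j (fun _ : E => (0 : E)) z = 0 := by
      intro j z
      rw [iteratedFDeriv_fun_zero]
      rfl
    have hε0 : ∀ x, 0 ≤ ε x := fun x => (norm_nonneg _).trans (hub x 0 (Nat.zero_le _) 0)
    have hstep : ∀ x, ∃ (u' : E → E) (ψ : Diffeomorph 𝓘(ℝ, E) 𝓘(ℝ, E) M M ∞), ContDiff ℝ ∞ u' ∧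
        (∀ z ∉ chartAt E b '' K b, u' z = 0) ∧
        (∀ j ≤ k, ∀ z, ‖iteratedFDeriv ℝ j u' z‖ ≤ ε x) ∧
        (∀ z ∈ (chartAt E b).target, z + u' z ∈ (chartAt E b).target) ∧
        (∀ v, ψ v = glue (chartAt E b) (fun z => z + u' z) v) ∧
        (ε x ≤ 1 / 2 → bq x = b → u' = u x) ∧ (bq x ≠ b → u' = fun _ => 0) := by
      intro x
      by_cases hsm : ε x ≤ 1 / 2 ∧ bq x = b
      · obtain ⟨hsm, rfl⟩ := hsm
        obtain ⟨h6, ψ, h7⟩ := exists_psi hKb hKs (hu x) (hu0 x hb) (fun z => by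
          have := hub x 1 hk z
          rw [norm_iteratedFDeriv_one] at this
          exact this.trans hsm)
        exact ⟨u x, ψ, hu x, hu0 x hb, hub x, h6, h7, fun _ _ => rfl, fun h => absurd rfl h⟩
      · have h1 : ContDiff ℝ ∞ (fun _ : E => (0 : E)) := contDiff_const
        obtain ⟨h6, ψ, h7⟩ := exists_psi (b := b) hKb hKs h1 (fun _ _ => rfl) (fun z => by
          rw [fderiv_const_apply, norm_zero]
          norm_num)
        refine ⟨fun _ => 0, ψ, h1, fun _ _ => rfl, fun j _ z => ?_, h6, h7,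
          fun h h' => absurd ⟨h, h'⟩ hsm, fun _ => rfl⟩
        rw [hzero, norm_zero]
        exact hε0 x
    choose u' ψ hu1 hu2 hu3 hu4 hψ hu5 hu6 using hstep
    have hKc : IsCompact (chartAt E b '' K b) :=
      hKb.image_of_continuousOn ((chartAt E b).continuousOn.mono hKs)
    have hKt : chartAt E b '' K b ⊆ (chartAt E b).target := by
      rintro _ ⟨y, hy, rfl⟩
      exact (chartAt E b).map_source (hKs hy)
    have hmc : ∀ x, MC E l k (fun i => (ψ i : M → M)) id x := by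
      intro x
      refine (mc_glue (chart_max (E := E) b) hKc hKt hε hu1 hu3 hu2 hu4 x).congr'
        (Eventually.of_forall fun p => ?_)
      exact (hψ p.1 p.2).symm
    have hev : ∀ᶠ x in l, ε x ≤ 1 / 2 := hε.eventually (Iic_mem_nhds (by norm_num))
    refine ⟨fun i => (Ψ i).trans (ψ i), fun x => ?_, ?_⟩
    · exact MC.comp (G := fun i => (ψ i : M → M)) (G₀ := id) (H := fun i => (Ψ i : M → M))
        (H₀ := id) (hmc x) (hΨ1 x)
    · filter_upwards [hΨ2, hev] with x h1 h2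
      obtain ⟨a1, a2⟩ := h1
      refine ⟨fun hbx v => ?_, fun hbx v => ?_⟩
      · change ψ x (Ψ x v) = _
        by_cases hxb : bq x = b
        · have : bq x ∉ t := by rw [hxb]; exact hbt
          rw [a2 this, hψ, hu5 x h2 hxb, hxb]
        · have hxt : bq x ∈ t := (Finset.mem_insert.1 hbx).resolve_left hxb
          rw [a1 hxt, hψ, hu6 x hxb]
          have e1 : ∀ w, glue (chartAt E b) (fun z => z + 0) w = w := by
            intro w
            by_cases hw : w ∈ (chartAt E b).source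
            · rw [glue_of_mem _ _ hw, add_zero, (chartAt E b).left_inv hw]
            · exact glue_of_not_mem _ _ hw
          exact e1 _
      · change ψ x (Ψ x v) = _
        have h1 : bq x ≠ b := fun h => hbx (by rw [h]; exact Finset.mem_insert_self b t)
        have h2 : bq x ∉ t := fun h => hbx (Finset.mem_insert_of_mem h)
        rw [a2 h2, hψ, hu6 x h1]
        by_cases hw : v ∈ (chartAt E b).source
        · rw [glue_of_mem _ _ hw, add_zero, (chartAt E b).left_inv hw]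
        · exact glue_of_not_mem _ _ hw

end CrS
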