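import Pool.Agent.CrS.LC
import Pool.Agent.OmSt.CrTop

/-!
# Sequences of diffeomorphisms which converge in the `C^r` topology
-/

open Set Filter Topology Manifold ContDiff Metric OmSt

set_option linter.unusedSectionVars false

namespace CrS

universe u

variable {E : Type u} [NormedAddCommGroup E] [NormedSpace ℝ E]
  {M : Type*} [TopologicalSpace M] [ChartedSpace E M] {r : ℕ∞} {k : ℕ}
  {ι : Type*} {l : Filter ι}

/-- A property which holds locally along `l ×ˢ 𝓝 x` for the points `x` of a compact set holds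
uniformly. -/
theorem eventually_forall_compact {X : Type*} [TopologicalSpace X] {K : Set X}
    (hK : IsCompact K) {P : ι → X → Prop} (h : ∀ x ∈ K, ∀ᶠ p : ι × X in l ×ˢ 𝓝 x, P p.1 p.2) :
    ∀ᶠ i in l, ∀ x ∈ K, P i x := by
  refine hK.induction_on (p := fun K => ∀ᶠ i in l, ∀ x ∈ K, P i x) (by simp)
    (fun s t hst ht => ht.mono fun i hi x hx => hi x (hst hx)) (fun s t hs ht => ?_)
    (fun x hx => ?_)
  · filter_upwards [hs, ht] with i h1 h2 x hx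
    rcases hx with hx | hx
    · exact h1 x hx
    · exact h2 x hx
  · obtain ⟨pa, ha, pb, hb, hab⟩ := Filter.eventually_prod_iff.1 (h x hx)
    refine ⟨{y | pb y}, mem_nhdsWithin_of_mem_nhds hb, ?_⟩
    filter_upwards [ha] with i hi y hy
    exact hab hi hy

/-- Local convergence of maps of `M`, together with the derivatives of order at most `k`. -/
structure MC (E : Type u) [NormedAddCommGroup E] [NormedSpace ℝ E] {M : Type*}
    [TopologicalSpace M] [ChartedSpace E M] {ι : Type*} (l : Filter ι) (k : ℕ) (G : ι → M → M) (G₀ : M → M) (x : M) :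
    Prop where
  tend : Tendsto (fun p : ι × M => G p.1 p.2) (l ×ˢ 𝓝 x) (𝓝 (G₀ x))
  cont : ContinuousAt G₀ x
  lc : ∃ φ ψ : OpenPartialHomeomorph M E, φ ∈ IsManifold.maximalAtlas 𝓘(ℝ, E) ∞ M ∧
    ψ ∈ IsManifold.maximalAtlas 𝓘(ℝ, E) ∞ M ∧ x ∈ φ.source ∧ G₀ x ∈ ψ.source ∧
      LC l k E (fun i => ψ ∘ G i ∘ φ.symm) (ψ ∘ G₀ ∘ φ.symm) (φ x)

theorem MC.mono {G : ι → M → M} {G₀ : M → M} {x : M} {j : ℕ} (h : MC E l k G G₀ x) (hj : j ≤ k) :
    MC E l j G G₀ x := by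
  obtain ⟨φ, ψ, h1, h2, h3, h4, h5⟩ := h.lc
  exact ⟨h.tend, h.cont, φ, ψ, h1, h2, h3, h4, h5.of_le hj⟩

variable [IsManifold 𝓘(ℝ, E) ∞ M]

/-- The change of charts. -/
theorem contDiffAt_trans {φ φ' : OpenPartialHomeomorph M E}
    (hφ : φ ∈ IsManifold.maximalAtlas 𝓘(ℝ, E) ∞ M)
    (hφ' : φ' ∈ IsManifold.maximalAtlas 𝓘(ℝ, E) ∞ M) {x : M} (hx : x ∈ φ.source)
    (hx' : x ∈ φ'.source) : ContDiffAt ℝ ∞ (φ' ∘ φ.symm) (φ x) := by
  have h1 : ContMDiffAt 𝓘(ℝ, E) 𝓘(ℝ, E) ∞ φ.symm (φ x) :=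
    contMDiffAt_symm_of_mem_maximalAtlas hφ (φ.map_source hx)
  have h2 : ContMDiffAt 𝓘(ℝ, E) 𝓘(ℝ, E) ∞ φ' (φ.symm (φ x)) := by
    rw [φ.left_inv hx]
    exact contMDiffAt_of_mem_maximalAtlas hφ' hx'
  exact (ContMDiffAt.comp (φ x) h2 h1).contDiffAt

theorem MC.chart {G : ι → M → M} {G₀ : M → M} {x : M} (h : MC E l k G G₀ x)
    {φ' ψ' : OpenPartialHomeomorph M E} (hφ' : φ' ∈ IsManifold.maximalAtlas 𝓘(ℝ, E) ∞ M)
    (hψ' : ψ' ∈ IsManifold.maximalAtlas 𝓘(ℝ, E) ∞ M) (hx : x ∈ φ'.source)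
    (hGx : G₀ x ∈ ψ'.source) :
    LC l k E (fun i => ψ' ∘ G i ∘ φ'.symm) (ψ' ∘ G₀ ∘ φ'.symm) (φ' x) := by
  obtain ⟨φ, ψ, h1, h2, h3, h4, h5⟩ := h.lc
  have c1 : LC l k E (fun _ => φ ∘ φ'.symm) (φ ∘ φ'.symm) (φ' x) :=
    LC.const ((contDiffAt_trans hφ' h1 hx h3).of_le (by exact_mod_cast le_top))
  have e1 : (φ ∘ φ'.symm) (φ' x) = φ x := by simp [φ'.left_inv hx]
  have e2 : (ψ ∘ G₀ ∘ φ.symm) (φ x) = ψ (G₀ x) := by simp [φ.left_inv h3]
  have c2 : LC l k E (fun _ => ψ' ∘ ψ.symm) (ψ' ∘ ψ.symm) (ψ (G₀ x)) :=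
    LC.const ((contDiffAt_trans h2 hψ' h4 hGx).of_le (by exact_mod_cast le_top))
  have c3 : LC l k E (fun i z => (ψ' ∘ ψ.symm) ((ψ ∘ G i ∘ φ.symm) z))
      (fun z => (ψ' ∘ ψ.symm) ((ψ ∘ G₀ ∘ φ.symm) z)) (φ x) :=
    LC.comp (f := fun _ => ψ' ∘ ψ.symm) (f₀ := ψ' ∘ ψ.symm) (h := fun i => ψ ∘ G i ∘ φ.symm)
      (h₀ := ψ ∘ G₀ ∘ φ.symm) (by rw [e2]; exact c2) h5
  have c4 : LC l k E (fun i z => (ψ' ∘ ψ.symm) ((ψ ∘ G i ∘ φ.symm) ((φ ∘ φ'.symm) z)))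
      (fun z => (ψ' ∘ ψ.symm) ((ψ ∘ G₀ ∘ φ.symm) ((φ ∘ φ'.symm) z))) (φ' x) :=
    LC.comp (f := fun i z => (ψ' ∘ ψ.symm) ((ψ ∘ G i ∘ φ.symm) z))
      (f₀ := fun z => (ψ' ∘ ψ.symm) ((ψ ∘ G₀ ∘ φ.symm) z)) (h := fun _ => φ ∘ φ'.symm)
      (h₀ := φ ∘ φ'.symm) (by rw [e1]; exact c3) c1
  have ht : Tendsto φ'.symm (𝓝 (φ' x)) (𝓝 x) := by
    have := (φ'.continuousAt_symm (φ'.map_source hx)).tendsto
    rwa [φ'.left_inv hx] at this
  refine c4.congr ?_ ?_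
  · have ht2 : Tendsto (fun p : ι × E => (p.1, φ'.symm p.2)) (l ×ˢ 𝓝 (φ' x))
        (l ×ˢ 𝓝 x) := tendsto_fst.prodMk (ht.comp tendsto_snd)
    filter_upwards [ht2.eventually (h.tend.eventually (ψ.open_source.mem_nhds h4)),
      ht2.eventually (tendsto_snd.eventually (φ.open_source.mem_nhds h3))] with p hp hp'
    have hp : G p.1 (φ'.symm p.2) ∈ ψ.source := hp
    have hp' : φ'.symm p.2 ∈ φ.source := hp'
    simp only [Function.comp_apply]
    rw [φ.left_inv hp', ψ.left_inv hp]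
  · filter_upwards [ht.eventually (h.cont.eventually (ψ.open_source.mem_nhds h4)),
      ht.eventually (φ.open_source.mem_nhds h3)] with z hz hz'
    have hz : G₀ (φ'.symm z) ∈ ψ.source := hz
    simp only [Function.comp_apply]
    rw [φ.left_inv hz', ψ.left_inv hz]

theorem MC.comp {G H : ι → M → M} {G₀ H₀ : M → M} {x : M} (hG : MC E l k G G₀ (H₀ x))
    (hH : MC E l k H H₀ x) : MC E l k (fun i => G i ∘ H i) (G₀ ∘ H₀) x := by
  obtain ⟨φ, ψ, h1, h2, h3, h4, h5⟩ := hH.lc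
  obtain ⟨φ', χ, g1, g2, g3, g4, -⟩ := hG.lc
  have ht : Tendsto (fun p : ι × M => (p.1, H p.1 p.2)) (l ×ˢ 𝓝 x)
      (l ×ˢ 𝓝 (H₀ x)) := tendsto_fst.prodMk hH.tend
  refine ⟨hG.tend.comp ht, hG.cont.comp hH.cont, φ, χ, h1, g2, h3, g4, ?_⟩
  have e2 : (ψ ∘ H₀ ∘ φ.symm) (φ x) = ψ (H₀ x) := by simp [φ.left_inv h3]
  have c1 := hG.chart h2 g2 h4 g4
  have c2 : LC l k E (fun i z => (χ ∘ G i ∘ ψ.symm) ((ψ ∘ H i ∘ φ.symm) z))
      (fun z => (χ ∘ G₀ ∘ ψ.symm) ((ψ ∘ H₀ ∘ φ.symm) z)) (φ x) :=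
    LC.comp (f := fun i => χ ∘ G i ∘ ψ.symm) (f₀ := χ ∘ G₀ ∘ ψ.symm)
      (h := fun i => ψ ∘ H i ∘ φ.symm) (h₀ := ψ ∘ H₀ ∘ φ.symm) (by rw [e2]; exact c1) h5
  have hts : Tendsto φ.symm (𝓝 (φ x)) (𝓝 x) := by
    have := (φ.continuousAt_symm (φ.map_source h3)).tendsto
    rwa [φ.left_inv h3] at this
  refine c2.congr ?_ ?_
  · have ht2 : Tendsto (fun p : ι × E => (p.1, φ.symm p.2)) (l ×ˢ 𝓝 (φ x))
        (l ×ˢ 𝓝 x) := tendsto_fst.prodMk (hts.comp tendsto_snd)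
    filter_upwards [ht2.eventually (hH.tend.eventually (ψ.open_source.mem_nhds h4))] with p hp
    have hp : H p.1 (φ.symm p.2) ∈ ψ.source := hp
    simp only [Function.comp_apply]
    rw [ψ.left_inv hp]
  · filter_upwards [hts.eventually (hH.cont.eventually (ψ.open_source.mem_nhds h4))] with z hz
    have hz : H₀ (φ.symm z) ∈ ψ.source := hz
    simp only [Function.comp_apply]
    rw [ψ.left_inv hz]

theorem MC.const (g : Dyn E M r) (hk : (k : ℕ∞) ≤ r) (x : M) :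
    MC E l k (fun _ => (g : M → M)) g x := by
  have hφ : chartAt E x ∈ IsManifold.maximalAtlas 𝓘(ℝ, E) ∞ M :=
    IsManifold.chart_mem_maximalAtlas x
  have hψ : chartAt E (g x) ∈ IsManifold.maximalAtlas 𝓘(ℝ, E) ∞ M :=
    IsManifold.chart_mem_maximalAtlas (g x)
  refine ⟨g.continuous.continuousAt.tendsto.comp tendsto_snd, g.continuous.continuousAt,
    chartAt E x, chartAt E (g x), hφ, hψ, mem_chart_source E x, mem_chart_source E (g x),
    LC.const ?_⟩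
  have h0 := contDiffAt_chart (V := ℝ) (v := 0) (G := fun p : ℝ × M => g p.2)
    (z := chartAt E x x) (n := r) hφ hψ (g.contMDiff.contMDiffAt.comp _ contMDiffAt_snd)
    ((chartAt E x).map_source (mem_chart_source E x)) (by
      rw [(chartAt E x).left_inv (mem_chart_source E x)]; exact mem_chart_source E (g x))
  have h1 : ContDiffAt ℝ r (chartAt E (g x) ∘ g ∘ (chartAt E x).symm) (chartAt E x x) :=
    h0.comp (chartAt E x x) (contDiffAt_const.prodMk contDiffAt_id)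
  exact h1.of_le (by exact_mod_cast hk)

theorem MC.congr {G G' : ι → M → M} {G₀ : M → M} {x : M} (h : MC E l k G G₀ x)
    (he : ∀ᶠ i in l, ∀ y, G i y = G' i y) : MC E l k G' G₀ x := by
  obtain ⟨φ, ψ, h1, h2, h3, h4, h5⟩ := h.lc
  refine ⟨h.tend.congr' ?_, h.cont, φ, ψ, h1, h2, h3, h4, h5.congr ?_ (Eventually.of_forall
    fun z => rfl)⟩
  · filter_upwards [tendsto_fst.eventually he] with p hp
    exact hp p.2
  · filter_upwards [tendsto_fst.eventually he] with p hp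
    simp only [Function.comp_apply]
    rw [hp]

/-- **Convergence in the `C^r` topology.** -/
theorem eventually_mem_of_mc {N : Set (Dyn E M r)} (hN : IsOpen[crTopology E M r] N)
    {g : Dyn E M r} (hg : g ∈ N) : ∃ k : ℕ, (k : ℕ∞) ≤ r ∧
      ∀ (l : Filter ι) (G : ι → Dyn E M r),
      (∀ x, MC E l k (fun i => (G i : M → M)) g x) → ∀ᶠ i in l, G i ∈ N := by
  induction hN with
  | basic S hS =>
    obtain ⟨f, φ, ψ, K, k, ε, hφ, hψ, hK, hKφ, hfK, hk, hε, rfl⟩ := hS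
    obtain ⟨hg1, hg2⟩ := hg
    refine ⟨k, hk, fun l G hG => ?_⟩
    have hkr : ((k : ℕ∞) : WithTop ℕ∞) ≤ (r : WithTop ℕ∞) := by exact_mod_cast hk
    have key : ∀ x ∈ K, ∀ᶠ p : ι × M in l ×ˢ 𝓝 x, G p.1 p.2 ∈ ψ.source ∧ ∀ j ≤ k,
        ‖iteratedFDeriv ℝ j (ψ ∘ (G p.1) ∘ φ.symm) (φ p.2) -
          iteratedFDeriv ℝ j (ψ ∘ f ∘ φ.symm) (φ p.2)‖ < ε := by
      intro x hx
      have hxφ : x ∈ φ.source := hKφ hx
      have hgx : g x ∈ ψ.source := hg1 hx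
      have hlc := (hG x).chart hφ hψ hxφ hgx
      have hf : ContDiffAt ℝ r (ψ ∘ f ∘ φ.symm) (φ x) := by
        have h0 := contDiffAt_chart (V := ℝ) (v := 0) (G := fun p : ℝ × M => f p.2) (z := φ x)
          (n := r) hφ hψ (f.contMDiff.contMDiffAt.comp _ contMDiffAt_snd) (φ.map_source hxφ) (by
            rw [φ.left_inv hxφ]; exact hfK hx)
        exact h0.comp (φ x) (contDiffAt_const.prodMk contDiffAt_id)
      refine Filter.Eventually.and ?_ ?_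
      · exact (hG x).tend.eventually (ψ.open_source.mem_nhds hgx)
      · refine Eventually.mono ((eventually_all_finite (Set.finite_Iic k)).2 ?_)
          (fun p hp j hj => hp j (Set.mem_Iic.2 hj))
        intro j hj
        have hj : j ≤ k := Set.mem_Iic.1 hj
        have c0 : Tendsto (fun p : ι × M => (p.1, φ p.2)) (l ×ˢ 𝓝 x) (l ×ˢ 𝓝 (φ x)) :=
          tendsto_fst.prodMk ((φ.continuousAt hxφ).tendsto.comp tendsto_snd)
        have c2 := (hlc.tendsto_iterated hj).comp c0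
        have c3 : Tendsto (fun p : ι × M => iteratedFDeriv ℝ j (ψ ∘ f ∘ φ.symm) (φ p.2))
            (l ×ˢ 𝓝 x) (𝓝 (iteratedFDeriv ℝ j (ψ ∘ f ∘ φ.symm) (φ x))) := by
          have h1 := (hf.of_le hkr).continuousAt_iteratedFDeriv (k := j) (by exact_mod_cast hj)
          exact h1.tendsto.comp ((φ.continuousAt hxφ).tendsto.comp tendsto_snd)
        exact ((c2.sub c3).norm).eventually (Iio_mem_nhds (hg2 x hx j hj))
    have h2 := eventually_forall_compact (P := fun i x => G i x ∈ ψ.source ∧ ∀ j ≤ k,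
      ‖iteratedFDeriv ℝ j (ψ ∘ (G i) ∘ φ.symm) (φ x) -
        iteratedFDeriv ℝ j (ψ ∘ f ∘ φ.symm) (φ x)‖ < ε) hK key
    filter_upwards [h2] with i hi
    exact ⟨fun x hx => (hi x hx).1, fun x hx => (hi x hx).2⟩
  | univ => exact ⟨0, by simp, fun l G _ => Eventually.of_forall fun _ => mem_univ _⟩
  | inter S T _ _ hS hT =>
    obtain ⟨k₁, hk₁, h₁⟩ := hS hg.1
    obtain ⟨k₂, hk₂, h₂⟩ := hT hg.2
    refine ⟨max k₁ k₂, ?_, fun l G hG => ?_⟩
    · rcases le_total k₁ k₂ with h | h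
      · rwa [max_eq_right h]
      · rwa [max_eq_left h]
    · filter_upwards [h₁ l G fun x => (hG x).mono (le_max_left _ _),
        h₂ l G fun x => (hG x).mono (le_max_right _ _)] with i a b
      exact ⟨a, b⟩
  | sUnion 𝒮 _ ih =>
    obtain ⟨S, hS, hgS⟩ := hg
    obtain ⟨k, hk, h⟩ := ih S hS hgS
    refine ⟨k, hk, fun l G hG => ?_⟩
    filter_upwards [h l G hG] with i hi
    exact ⟨S, hS, hi⟩

end CrS
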